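import Pool.Agent.W737.SB.Main
import Pool.Agent.W120.SB.Cmp
import Pool.Agent.W120.SB.Up
import Pool.Agent.W177.SB.NK
import Pool.Agent.W181.SB.Bet
import Pool.Agent.W216.SB.Ent
import Pool.Agent.W230.SB.Rat
import Pool.Agent.W239.SB.H
import Pool.Agent.W346.SB.Ext
import Pool.Agent.W366.SB.Kap
import Pool.Agent.W397.SB.Aut
import Pool.Agent.W417.SB.Contr
import Pool.Agent.W417.SB.Hat
import Pool.Agent.W505.SB.Good
import Pool.Agent.W591.SB.Psc
import Pool.Agent.W605.SB.WH
import Pool.Agent.W732.SB.Shr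

/-!
# A bounded C2 domain biholomorphic to the ball is strictly pseudoconvex (project SB)
-/

set_option autoImplicit false

open Metric Set

namespace Pool.Agent.W737.SB

/-- no boundary point is bad -/
theorem not_bad {n : ℕ} {Ω : Set (V n)} {ρ : V n → ℝ} (D : Dat Ω ρ) (q : V n) : ¬ Bad ρ q := by
  have haut : S_aut := W397.SB.t_aut
  have hsp : S_sp := W397.SB.t_sp
  have hhat : S_hat := W417.SB.t_hat
  have hent : S_ent := W216.SB.Ent.t_ent
  have hqu : S_qu := W216.SB.Ent.t_qu
  have hcon : S_con := W417.SB.t_con haut hhat hent hqu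
  have hkap : S_kap := W366.SB.t_kap haut
  exact main_of haut hent hqu hcon (W230.SB.t_rat hent) hkap W366.SB.t_der W239.SB.t_h
    W732.SB.t_shr W732.SB.t_far W120.SB.t_up
    (W505.SB.t_good (W177.SB.t_nk haut) W591.SB.t_psc W605.SB.t_wh W181.SB.t_bet)
    (W346.SB.t_ext haut hkap) (W120.SB.t_cmp hsp) D q

end Pool.Agent.W737.SB
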