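import Pool.Agent.W737.SB.Step

/-!
# Start and chain (project SB)
-/

set_option autoImplicit false

open Metric Set

namespace Pool.Agent.W737.SB

variable {n : ℕ}

theorem Ht.h_p {ρ : V n → ℝ} {p ν : V n} {h : V n → ℝ} {r₀ C : ℝ} (T : Ht ρ p ν h r₀ C) :
    h p = 0 := (T.zero p (mem_ball_self T.r0)).1 T.hp

theorem Ht.h_le {ρ : V n → ℝ} {p ν : V n} {h : V n → ℝ} {r₀ C : ℝ} (T : Ht ρ p ν h r₀ C)
    {z : V n} (hz : z ∈ ball p r₀) : |h z| ≤ C * ‖z - p‖ := by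
  have := T.lip z hz p (mem_ball_self T.r0)
  rwa [T.h_p, sub_zero] at this

theorem Ctx.h_pos {Ω : Set (V n)} {ρ : V n → ℝ} {p ν : V n} {h : V n → ℝ} {r₀ C s₁ c₂ C₂ : ℝ}
    (X : Ctx Ω ρ p ν h r₀ C s₁ c₂ C₂) {z : V n} (hz : z ∈ ball p r₀) : z ∈ Ω ↔ 0 < h z := by
  rw [← X.T.sign z hz, X.D.eq]
  rfl

/-- start of the chain -/
theorem start (haut : S_aut) (hcmp : S_cmp) (hent : S_ent) (hqu : S_qu)
    {Ω : Set (V n)} {ρ : V n → ℝ} {p ν : V n} {h : V n → ℝ} {r₀ C s₁ c₂ C₂ : ℝ}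
    (X : Ctx Ω ρ p ν h r₀ C s₁ c₂ C₂) (K : Set (V n)) (hK : IsCompact K) (hKΩ : K ⊆ Ω) :
    ∃ Q₀ : ℝ, 0 < Q₀ ∧ ∀ s : ℝ, 0 < s → s ≤ s₁ → s ≤ r₀ / 2 → ∀ z ∈ K, z ∈ ball p r₀ →
      Reg Ω p s z → QB Ω ν h c₂ C₂ s z Q₀ := by
  obtain ⟨K', hK', hK'Ω, hK'2⟩ := hcmp n Ω ρ X.D K (3 / 5) hK hKΩ (by norm_num)
  have hr0 := X.T.r0
  have hC0 := X.T.C0
  have hC2 := X.C2
  have hsub : closedBall p (r₀ / 2) ⊆ ball p r₀ := closedBall_subset_ball (by linarith)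
  have hK'' : IsCompact (K' ∩ closedBall p (r₀ / 2)) := hK'.inter_right isClosed_closedBall
  have hcont : ContinuousOn h (K' ∩ closedBall p (r₀ / 2)) :=
    X.T.smooth.continuousOn.mono (inter_subset_right.trans hsub)
  obtain ⟨β₀, hβ₀, hβ₀'⟩ : ∃ β₀ : ℝ, 0 < β₀ ∧ ∀ w ∈ K' ∩ closedBall p (r₀ / 2), β₀ ≤ h w := by
    rcases (K' ∩ closedBall p (r₀ / 2)).eq_empty_or_nonempty with he | hne
    · exact ⟨1, one_pos, by rw [he]; simp⟩
    · obtain ⟨w, hw, hmin⟩ := hK''.exists_isMinOn hne hcont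
      exact ⟨h w, (X.h_pos (hsub hw.2)).1 (hK'Ω hw.1), fun w' hw' => hmin hw'⟩
  refine ⟨(C * r₀) ^ 2 * (12 * C₂ / β₀) ^ 2, by positivity, ?_⟩
  intro s hs hs1 hsr z hz hzr hReg
  obtain ⟨f, F, H⟩ := X.D.exists_frame haut (hKΩ hz)
  obtain ⟨β, b, A, g⟩ := X.good s hs hs1 f F z H (hReg f F H)
  have hβ := g.β0
  have hs10 : s ≤ 1 / 10 := hs1.trans X.s1'
  have hββ : β₀ ≤ β := by
    obtain ⟨x₀, h1, h2⟩ := g.att
    rw [← h2]
    apply hβ₀'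
    refine ⟨hK'2 z hz f F H x₀ h1, ?_⟩
    rw [mem_closedBall, dist_eq_norm]
    have h4 : s ^ 4 ≤ (1 / 10) ^ 4 := pow_le_pow_left₀ hs.le hs10 4
    have h3 := hReg f F H x₀ (by norm_num at h4; linarith [h4, h1])
    refine h3.trans (le_trans ?_ hsr)
    calc s ^ 9 = s ^ 8 * s := by ring
      _ ≤ 1 * s := by
        apply mul_le_mul_of_nonneg_right _ hs.le
        exact pow_le_one₀ hs.le (by linarith)
      _ = s := one_mul s
  set δ : ℝ := 2 * C₂ / β with hδ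
  have hδ0 : 0 ≤ δ := by positivity
  have h1 : ∀ x : V n, ‖x‖ ≤ 3 / 4 → ‖qf b A x - qf (0 : V n) (0 : V n →L[ℂ] V n) x‖ ≤ δ := by
    intro x hx
    have e1 : qf (0 : V n) (0 : V n →L[ℂ] V n) x = 0 := by simp [qf]
    rw [e1, sub_zero]
    have e2 := g.appr x (by linarith)
    have e3 := g.up x (by linarith)
    have e4 : ‖qf b A x‖ ≤ ‖fderiv ℂ F (f x) ν‖ + ‖fderiv ℂ F (f x) ν - qf b A x‖ := by
      have := norm_sub_le (fderiv ℂ F (f x) ν) (fderiv ℂ F (f x) ν - qf b A x)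
      simpa using this
    have e5 : C₂ * s / β ≤ C₂ / β := by
      gcongr
      nlinarith
    have e6 : δ = C₂ / β + C₂ / β := by rw [hδ]; ring
    linarith
  obtain ⟨h2, h3⟩ := hqu n b 0 A 0 δ (3 / 4) (by norm_num) (by norm_num) hδ0 h1
  rw [sub_zero] at h2 h3
  obtain ⟨M, hM, hf, hMn⟩ := hent.2 n b A g.sym
  refine ⟨f, F, H, β, b, A, g, M, hM, hf, ?_⟩
  have h4 : ‖M‖ ≤ 6 * δ := by
    have : 3 * δ / (3 / 4) = 4 * δ := by ring
    linarith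
  have h5 : 6 * δ ≤ 12 * C₂ / β₀ := by
    rw [hδ]
    have : 6 * (2 * C₂ / β) = 12 * C₂ / β := by ring
    rw [this]
    gcongr
  have h6 : ‖M.comp M‖ ≤ (12 * C₂ / β₀) ^ 2 := by
    calc ‖M.comp M‖ ≤ ‖M‖ * ‖M‖ := M.opNorm_comp_le M
      _ = ‖M‖ ^ 2 := by ring
      _ ≤ (12 * C₂ / β₀) ^ 2 := by
        have := h4.trans h5
        gcongr
  have hy : 0 < h z := hβ.trans_le g.βh
  have h7 : h z ≤ C * r₀ := by
    have e1 := X.T.h_le hzr
    rw [abs_of_pos hy] at e1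
    rw [mem_ball, dist_eq_norm] at hzr
    exact e1.trans (mul_le_mul_of_nonneg_left hzr.le hC0.le)
  gcongr

/-- the chain -/
theorem chain {Ω : Set (V n)} {ρ : V n → ℝ} {p ν : V n} {h : V n → ℝ} {r₀ C s₁ c₂ C₂ s C₆ : ℝ}
    (X : Ctx Ω ρ p ν h r₀ C s₁ c₂ C₂) (hs : 0 < s) (hC₆ : 0 < C₆) {r y₁ Q₀ : ℝ} (hr : r < r₀)
    (hreg : ∀ z ∈ Ω, ‖z - p‖ ≤ r → Reg Ω p s z)
    (hstep : ∀ z : V n, z ∈ ball p r₀ → z + ((h z / 2 : ℝ) : ℂ) • ν ∈ ball p r₀ → ∀ Q : ℝ,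
      QB Ω ν h c₂ C₂ s z Q → Reg Ω p s (z + ((h z / 2 : ℝ) : ℂ) • ν) →
      QB Ω ν h c₂ C₂ s (z + ((h z / 2 : ℝ) : ℂ) • ν) (4 / 5 * Q + C₆ * s))
    (hstart : ∀ z ∈ Ω, ‖z - p‖ ≤ r → y₁ / 2 ≤ h z → h z ≤ y₁ → QB Ω ν h c₂ C₂ s z Q₀) :
    ∀ k : ℕ, ∀ z ∈ Ω, ‖z - p‖ + (2 ^ k - 1) * h z ≤ r → y₁ / 2 ≤ 2 ^ k * h z →
      2 ^ k * h z ≤ y₁ → QB Ω ν h c₂ C₂ s z ((4 / 5) ^ k * Q₀ + 5 * C₆ * s) := by
  have hν : ‖ν‖ = 1 := X.T.hν
  have hCs : 0 < C₆ * s := by positivity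
  intro k
  induction k with
  | zero =>
    intro z hz h1 h2 h3
    have h1' : ‖z - p‖ ≤ r := by simpa using h1
    refine (hstart z hz h1' (by simpa using h2) (by simpa using h3)).mono X.C2 le_rfl ?_
    simp only [pow_zero, one_mul]
    linarith
  | succ k ih =>
    intro z hz h1 h2 h3
    have hk : (1 : ℝ) ≤ 2 ^ k := one_le_pow₀ (by norm_num)
    have hzn : ‖z - p‖ ≤ r ∨ h z < 0 := by
      by_cases hneg : h z < 0
      · exact Or.inr hneg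
      · left
        push Not at hneg
        have : 0 ≤ (2 ^ (k + 1) - 1) * h z := by
          apply mul_nonneg _ hneg
          rw [pow_succ]; linarith
        linarith
    have hzr : z ∈ ball p r₀ := by
      rcases hzn with hzn | hzn
      · rw [mem_ball, dist_eq_norm]; linarith
      · exfalso
        -- y₁ / 2 ≤ negative, 2^.. h z ≤ y₁: then y₁/2 ≤ x ≤ y₁ with x<0 gives y₁ <0, y₁/2 ≤ y₁
        have hx : (2:ℝ) ^ (k + 1) * h z < 0 := mul_neg_of_pos_of_neg (by positivity) hzn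
        linarith
    have hy : 0 < h z := (X.h_pos hzr).1 hz
    have hzn' : ‖z - p‖ ≤ r := by
      rcases hzn with hzn | hzn
      · exact hzn
      · linarith
    set w : V n := z - ((h z : ℝ) : ℂ) • ν with hw
    have hnorm : ‖((h z : ℝ) : ℂ) • ν‖ = h z := by
      rw [norm_smul, hν, mul_one, Complex.norm_real, Real.norm_of_nonneg hy.le]
    have hwp : ‖w - p‖ ≤ ‖z - p‖ + h z := by
      have e1 : w - p = (z - p) - ((h z : ℝ) : ℂ) • ν := by rw [hw]; abel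
      rw [e1]
      refine (norm_sub_le _ _).trans ?_
      rw [hnorm]
    have e2 : (2 : ℝ) ^ (k + 1) = 2 * 2 ^ k := by rw [pow_succ]; ring
    have hwr : w ∈ ball p r₀ := by
      rw [mem_ball, dist_eq_norm]
      have : h z ≤ (2 ^ (k + 1) - 1) * h z := by
        rw [e2]
        nlinarith
      linarith
    have hw' : w = z + ((-h z : ℝ) : ℂ) • ν := by
      rw [hw]; push_cast; rw [neg_smul, sub_eq_add_neg]
    have hhw : h w = 2 * h z := by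
      have := X.T.shift z hzr (-h z) (by rw [← hw']; exact hwr)
      rw [← hw'] at this
      rw [this]; ring
    have hwΩ : w ∈ Ω := (X.h_pos hwr).2 (by rw [hhw]; linarith)
    have hback : w + ((h w / 2 : ℝ) : ℂ) • ν = z := by
      rw [hhw, hw]
      have : (2 * h z / 2 : ℝ) = h z := by ring
      rw [this]
      abel
    have h4 := ih w hwΩ (by
      rw [hhw]
      rw [e2] at h1
      nlinarith) (by rw [hhw]; rw [e2] at h2; linarith) (by rw [hhw]; rw [e2] at h3; linarith)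
    have h5 := hstep w hwr (by rw [hback]; exact hzr) _ h4 (by
      rw [hback]; exact hreg z hz hzn')
    rw [hback] at h5
    refine h5.mono X.C2 le_rfl (le_of_eq ?_)
    rw [pow_succ]
    ring

end Pool.Agent.W737.SB
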