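import Pool.Agent.W737.SQ.Metric

/-!
# Bounded C2 domains biholomorphic to the ball are strictly pseudoconvex: definitions, statements

Project SB (MP_49b044_an, frozen statement S04573), owner helper737.
-/

set_option autoImplicit false

open Metric Set

namespace Pool.Agent.W737.SB

/-- complex n-space -/
abbrev V (n : ℕ) := EuclideanSpace ℂ (Fin n)

/-- the space `ℂ × ℂ^n` with its Euclidean norm -/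
abbrev HH (n : ℕ) := WithLp 2 (ℂ × V n)

/-- four times the Levi form of h at z in direction w -/
noncomputable def H4 {n : ℕ} (h : V n → ℝ) (z w : V n) : ℝ :=
  fderiv ℝ (fderiv ℝ h) z w w + fderiv ℝ (fderiv ℝ h) z (Complex.I • w) (Complex.I • w)

/-- a biholomorphic map `f` from the unit ball onto Omega with `f 0 = z`, and its inverse `F` -/
structure Fr {n : ℕ} (Ω : Set (V n)) (f F : V n → V n) (z : V n) : Prop where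
  hf : DifferentiableOn ℂ f (ball 0 1)
  hfm : MapsTo f (ball 0 1) Ω
  hF : DifferentiableOn ℂ F Ω
  hFm : MapsTo F Ω (ball 0 1)
  left : ∀ ζ ∈ ball (0 : V n) 1, F (f ζ) = ζ
  right : ∀ w ∈ Ω, f (F w) = w
  base : f 0 = z

/-- bounded domain with a C2 defining function, biholomorphic to the ball -/
structure Dat {n : ℕ} (Ω : Set (V n)) (ρ : V n → ℝ) : Prop where
  smooth : ContDiff ℝ 2 ρ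
  eq : Ω = {x | ρ x < 0}
  bdd : Bornology.IsBounded Ω
  nz : ∀ p, ρ p = 0 → fderiv ℝ ρ p ≠ 0
  frame : ∃ f F z, Fr Ω f F z

/-- a boundary point at which Omega is not strictly pseudoconvex -/
def Bad {n : ℕ} (ρ : V n → ℝ) (q : V n) : Prop :=
  ρ q = 0 ∧ ∃ w : V n, w ≠ 0 ∧ fderiv ℝ ρ q w = 0 ∧ fderiv ℝ ρ q (Complex.I • w) = 0 ∧
    H4 ρ q w ≤ 0

/-- the involutive automorphism of the unit ball exchanging 0 and a -/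
noncomputable def aut {n : ℕ} (a x : V n) : V n :=
  ((1 - inner ℂ a x : ℂ)⁻¹) • (a - ((Real.sqrt (1 - ‖a‖ ^ 2) : ℝ) : ℂ) • x
    - ((inner ℂ a x : ℂ) / (1 + ((Real.sqrt (1 - ‖a‖ ^ 2) : ℝ) : ℂ))) • a)

/-- the lift `(1, x)` -/
noncomputable def lift {n : ℕ} (x : V n) : HH n := WithLp.toLp 2 ((1 : ℂ), x)

/-- the indefinite form -/
noncomputable def J {n : ℕ} (x y : HH n) : ℂ :=
  (starRingEnd ℂ) x.fst * y.fst - inner ℂ x.snd y.snd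

/-- J-selfadjoint operators -/
def IsJ {n : ℕ} (M : HH n →L[ℂ] HH n) : Prop := ∀ x y, J (M x) y = J x (M y)

/-- the projective vector field of an operator -/
noncomputable def fld {n : ℕ} (M : HH n →L[ℂ] HH n) (x : V n) : V n :=
  (M (lift x)).snd - (M (lift x)).fst • x

/-- quadratic vector field -/
noncomputable def qf {n : ℕ} (b : V n) (A : V n →L[ℂ] V n) (x : V n) : V n :=
  b + A x + (inner ℂ b x : ℂ) • x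

/-- symmetric operators -/
def Sym {n : ℕ} (A : V n →L[ℂ] V n) : Prop := ∀ x y, (inner ℂ (A x) y : ℂ) = inner ℂ x (A y)

/-- SB-AUT: the ball automorphism -/
def S_aut : Prop :=
  ∀ (n : ℕ) (a : V n), ‖a‖ < 1 →
    DifferentiableOn ℂ (aut a) (ball 0 1) ∧ MapsTo (aut a) (ball 0 1) (ball 0 1) ∧
    (∀ x ∈ ball (0 : V n) 1, aut a (aut a x) = x) ∧ aut a 0 = a ∧ aut a a = 0 ∧
    (∀ x ∈ ball (0 : V n) 1, 1 - ‖aut a x‖ ^ 2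
      = (1 - ‖a‖ ^ 2) * (1 - ‖x‖ ^ 2) / ‖(1 - inner ℂ a x : ℂ)‖ ^ 2) ∧
    (∀ x ∈ ball (0 : V n) 1, ‖aut a x‖ * (1 + ‖a‖ * ‖x‖) ≤ ‖a‖ + ‖x‖) ∧
    (∀ v : V n, ‖fderiv ℂ (aut a) a v‖ ^ 2
      = ‖v‖ ^ 2 / (1 - ‖a‖ ^ 2) + ‖(inner ℂ a v : ℂ)‖ ^ 2 / (1 - ‖a‖ ^ 2) ^ 2)

/-- SB-SP: Schwarz-Pick for holomorphic maps of the ball -/
def S_sp : Prop :=
  ∀ (n : ℕ) (G : V n → V n), DifferentiableOn ℂ G (ball 0 1) → MapsTo G (ball 0 1) (ball 0 1) →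
    ∀ x ∈ ball (0 : V n) 1, ‖G x‖ * (1 + ‖G 0‖ * ‖x‖) ≤ ‖G 0‖ + ‖x‖

/-- SB-HAT: the lift of the automorphism -/
def S_hat : Prop :=
  ∀ (n : ℕ) (a : V n), ‖a‖ < 1 → ∃ g : HH n →L[ℂ] HH n, (∀ x, g (g x) = x) ∧
    (∀ x y, J (g x) (g y) = J x y) ∧ ‖g‖ ^ 2 ≤ (1 + ‖a‖) / (1 - ‖a‖) ∧
    ∀ x : V n, ‖x‖ < 1 → (g (lift x)).fst ≠ 0 ∧ g (lift x) = (g (lift x)).fst • lift (aut a x)

/-- SB-NK: near isometries are near projective vector fields -/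
def S_nk : Prop :=
  ∀ n : ℕ, ∃ C s0 : ℝ, 0 < C ∧ 0 < s0 ∧ s0 < 1 / 10 ∧ ∀ s β : ℝ, 0 < s → s ≤ s0 → 0 < β →
    ∀ Z Gp Gm : V n → V n,
      DifferentiableOn ℂ Gp (ball 0 (1 - s ^ 4)) → DifferentiableOn ℂ Gm (ball 0 (1 - s ^ 4)) →
      MapsTo Gp (ball 0 (1 - s ^ 4)) (ball 0 1) → MapsTo Gm (ball 0 (1 - s ^ 4)) (ball 0 1) →
      (∀ x, ‖x‖ < 1 - s ^ 4 → ‖Gp x‖ < 1 - s ^ 4 → Gm (Gp x) = x) →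
      (∀ x, ‖x‖ < 1 - s ^ 4 → ‖Gm x‖ < 1 - s ^ 4 → Gp (Gm x) = x) →
      (∀ x, ‖x‖ ≤ 9 / 10 → ‖Gp x - x - (Complex.I * ((s * β : ℝ) : ℂ)) • Z x‖ ≤ 2 * s ^ 2) →
      (∀ x, ‖x‖ ≤ 9 / 10 → ‖Gm x - x + (Complex.I * ((s * β : ℝ) : ℂ)) • Z x‖ ≤ 2 * s ^ 2) →
      (∀ x, ‖x‖ ≤ 9 / 10 → ‖Z x‖ ≤ 1 / β) →
      ∃ (b : V n) (A : V n →L[ℂ] V n), Sym A ∧
        ∀ x, ‖x‖ ≤ 4 / 5 → ‖Z x - qf b A x‖ ≤ C * s / β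

/-- SB-ENT: entries of a J-selfadjoint operator -/
def S_ent : Prop :=
  (∀ (n : ℕ) (M : HH n →L[ℂ] HH n), IsJ M → ∃ (b : V n) (A : V n →L[ℂ] V n) (d : ℝ), Sym A ∧
    (∀ x, fld M x = qf b A x) ∧ ‖b‖ ≤ ‖M‖ ∧ ‖A‖ ≤ 2 * ‖M‖ ∧
    |d ^ 2 - ‖b‖ ^ 2| ≤ ‖M.comp M‖ ∧
    ‖A b - ((2 * d : ℝ) : ℂ) • b‖ ≤ ‖M.comp M‖ ∧
    (∀ x, ‖A (A x) - ((2 * d : ℝ) : ℂ) • A x + ((d ^ 2 : ℝ) : ℂ) • x - (inner ℂ b x : ℂ) • b‖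
      ≤ ‖M.comp M‖ * ‖x‖) ∧
    ‖M‖ ^ 2 ≤ 20 * (‖b‖ ^ 2 + ‖M.comp M‖)) ∧
  (∀ (n : ℕ) (b : V n) (A : V n →L[ℂ] V n), Sym A → ∃ M : HH n →L[ℂ] HH n, IsJ M ∧
    (∀ x, fld M x = qf b A x) ∧ ‖M‖ ≤ 2 * ‖b‖ + ‖A‖)

/-- SB-QU: a quadratic field determines its coefficients -/
def S_qu : Prop :=
  ∀ (n : ℕ) (b c : V n) (A D : V n →L[ℂ] V n) (δ r : ℝ), 0 < r → r ≤ 1 → 0 ≤ δ →
    (∀ x, ‖x‖ ≤ r → ‖qf b A x - qf c D x‖ ≤ δ) →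
      ‖b - c‖ ≤ δ ∧ ‖A - D‖ ≤ 3 * δ / r

/-- SB-CON: the contraction step -/
def S_con : Prop :=
  ∀ n : ℕ, ∃ C : ℝ, 0 < C ∧ ∀ a : V n, ‖a‖ ≤ 51 / 100 → ∀ (Z : V n → V n)
    (M : HH n →L[ℂ] HH n) (ε : ℝ), 0 ≤ ε → IsJ M →
    (∀ x, ‖x‖ ≤ 4 / 5 → ‖Z x - fld M x‖ ≤ ε) →
    ∀ (b : V n) (A : V n →L[ℂ] V n), Sym A →
      (∀ x, ‖x‖ ≤ 4 / 5 → ‖fderiv ℂ (aut a) (aut a x) (Z (aut a x)) - qf b A x‖ ≤ ε) →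
      ∃ M' : HH n →L[ℂ] HH n, IsJ M' ∧ (∀ x, fld M' x = qf b A x) ∧
        ‖M'.comp M'‖ ≤ (1 + ‖a‖) / (1 - ‖a‖) * ‖M.comp M‖ + C * ε * (‖M‖ + ε)

/-- SB-RAT: the linear algebra of the ratio inequality -/
def S_rat : Prop :=
  ∀ (n : ℕ) (c₁ C₁ : ℝ), 0 < c₁ → 0 < C₁ → ∃ C q₀ c₂ : ℝ, 0 < C ∧ 0 < q₀ ∧ 0 < c₂ ∧
    ∀ y q ε : ℝ, 0 < y → 0 ≤ q → q ≤ q₀ → 0 ≤ ε → ε ≤ q₀ →
    ∀ (M : HH n →L[ℂ] HH n) (b b₀ : V n) (A A₀ : V n →L[ℂ] V n), IsJ M → Sym A →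
      (∀ x, fld M x = qf b A x) → ‖b₀ - b‖ ≤ ε / y → ‖A₀ - A‖ ≤ ε / y →
      ‖M.comp M‖ ≤ q / y ^ 2 → c₁ / y ≤ ‖b‖ → ‖M‖ ≤ C₁ / y →
      ∃ d : ℝ, c₂ / y ≤ |d| ∧ c₂ / y ≤ ‖b₀‖ ∧
        |(inner ℂ b₀ (A₀ b₀) : ℂ).re - 2 * d * ‖b₀‖ ^ 2| ≤ C * (q + ε) / y * ‖b₀‖ ^ 2 ∧
        (0 < d → ∀ u : V n, (d - C * (Real.sqrt q + ε) / y) * ‖u‖ ^ 2 ≤ (inner ℂ u (A₀ u) : ℂ).re)

/-- the square of the Kobayashi metric, computed in a frame -/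
noncomputable def kap {n : ℕ} (F : V n → V n) (w v : V n) : ℝ :=
  ‖fderiv ℂ F w v‖ ^ 2 / (1 - ‖F w‖ ^ 2)
    + ‖(inner ℂ (F w) (fderiv ℂ F w v) : ℂ)‖ ^ 2 / (1 - ‖F w‖ ^ 2) ^ 2

/-- SB-KAP: the metric is the Caratheodory type metric of project SQ -/
def S_kap : Prop :=
  ∀ (n : ℕ) (Ω : Set (V n)) (f F : V n → V n) (z : V n), IsOpen Ω → Fr Ω f F z →
    ∀ w ∈ Ω, ∀ v : V n, Pool.Agent.W737.SQ.Car Ω w v ^ 2 = kap F w v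

/-- SB-DER: logarithmic derivative of the metric along a line -/
def S_der : Prop :=
  ∀ (n : ℕ) (Ω : Set (V n)) (f F : V n → V n) (z ν v : V n), IsOpen Ω → Fr Ω f F z →
    HasDerivAt (fun s : ℝ => kap F (z + (s : ℂ) • ν) v)
      (2 * (inner ℂ (fderiv ℂ F z v)
        (fderiv ℂ (fun x => fderiv ℂ F (f x) ν) 0 (fderiv ℂ F z v)) : ℂ).re) 0

/-- local height function -/
structure Ht {n : ℕ} (ρ : V n → ℝ) (p ν : V n) (h : V n → ℝ) (r₀ C : ℝ) : Prop where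
  hp : ρ p = 0
  hν : ‖ν‖ = 1
  r0 : 0 < r₀
  C0 : 0 < C
  smooth : ContDiffOn ℝ 2 h (ball p r₀)
  dh : ∀ X : V n, fderiv ℝ h p X = -(inner ℂ ν X : ℂ).re
  sign : ∀ w ∈ ball p r₀, (ρ w < 0 ↔ 0 < h w)
  zero : ∀ w ∈ ball p r₀, (ρ w = 0 ↔ h w = 0)
  shift : ∀ w ∈ ball p r₀, ∀ s : ℝ, w + (s : ℂ) • ν ∈ ball p r₀ → h (w + (s : ℂ) • ν) = h w - s
  lip : ∀ w ∈ ball p r₀, ∀ w' ∈ ball p r₀, |h w - h w'| ≤ C * ‖w - w'‖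
  ishift : ∀ w ∈ ball p r₀, ∀ s : ℝ, w + (Complex.I * (s : ℂ)) • ν ∈ ball p r₀ →
    |h (w + (Complex.I * (s : ℂ)) • ν) - h w| ≤ C * |s| * (‖w - p‖ + |s|)

/-- SB-H: existence of the local height function -/
def S_h : Prop :=
  ∀ (n : ℕ) (ρ : V n → ℝ) (p : V n), ContDiff ℝ 2 ρ → ρ p = 0 → fderiv ℝ ρ p ≠ 0 →
    ∃ (ν : V n) (h : V n → ℝ) (r₀ C c : ℝ), Ht ρ p ν h r₀ C ∧ 0 < c ∧
      ∀ X : V n, fderiv ℝ ρ p X = c * (inner ℂ ν X : ℂ).re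

/-- SB-PSC: pseudoconvexity inequality for the height function -/
def S_psc : Prop :=
  ∀ (n : ℕ) (Ω : Set (V n)) (ρ : V n → ℝ) (p ν : V n) (h : V n → ℝ) (r₀ C : ℝ),
    Dat Ω ρ → Ht ρ p ν h r₀ C →
    ∃ r₁ C₁ : ℝ, 0 < r₁ ∧ r₁ ≤ r₀ ∧ 0 < C₁ ∧ ∀ w ∈ ball p r₁, ∀ v : V n,
      H4 h w v ≤ C₁ * ‖v‖ * (|fderiv ℝ h w v| + |fderiv ℝ h w (Complex.I • v)|)

/-- SB-WH: Harnack type inequality along discs -/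
def S_wh : Prop :=
  ∀ (n : ℕ) (p : V n) (h : V n → ℝ) (r₁ C₁ : ℝ), 0 < r₁ → 0 < C₁ →
    ContDiffOn ℝ 2 h (ball p r₁) →
    (∀ w ∈ ball p r₁, ∀ v : V n,
      H4 h w v ≤ C₁ * ‖v‖ * (|fderiv ℝ h w v| + |fderiv ℝ h w (Complex.I • v)|)) →
    ∃ r₂ c : ℝ, 0 < r₂ ∧ r₂ ≤ r₁ ∧ 0 < c ∧ ∀ (g : ℂ → V n) (r R β : ℝ), 0 < r → r < R →
      0 < β → DifferentiableOn ℂ g (ball 0 R) → MapsTo g (ball 0 R) (ball p r₂) →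
      (∀ t ∈ ball (0 : ℂ) R, 0 < h (g t)) → (∀ t : ℂ, ‖t‖ = r → β ≤ h (g t)) →
      ∀ t ∈ ball (0 : ℂ) R, r ≤ ‖t‖ →
        c * β * (Real.log (R / ‖t‖) / Real.log (R / r)) ^ 2 ≤ h (g t)

/-- SB-SHR: the images of fixed balls shrink to the farthest non strictly pseudoconvex point -/
def S_shr : Prop :=
  ∀ (n : ℕ) (Ω : Set (V n)) (ρ : V n → ℝ) (p : V n), Dat Ω ρ → ρ p = 0 →
    (∀ q, Bad ρ q → ‖q‖ ≤ ‖p‖) → ∀ t ε : ℝ, t < 1 → 0 < ε →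
    ∃ r : ℝ, 0 < r ∧ ∀ z ∈ Ω, ‖z - p‖ < r → ∀ f F : V n → V n, Fr Ω f F z →
      ∀ x : V n, ‖x‖ ≤ t → ‖f x - p‖ < ε

/-- SB-FAR: there is a farthest bad point -/
def S_far : Prop :=
  ∀ (n : ℕ) (Ω : Set (V n)) (ρ : V n → ℝ) (q₀ : V n), Dat Ω ρ → Bad ρ q₀ →
    ∃ p, Bad ρ p ∧ ∀ q, Bad ρ q → ‖q‖ ≤ ‖p‖

/-- SB-UP: large discs in a null direction at a bad point -/
def S_up : Prop :=
  ∀ (n : ℕ) (ρ : V n → ℝ) (p ν w : V n) (c N : ℝ), ContDiff ℝ 2 ρ → ρ p = 0 → ‖ν‖ = 1 → 0 < c →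
    (∀ X : V n, fderiv ℝ ρ p X = c * (inner ℂ ν X : ℂ).re) →
    fderiv ℝ ρ p w = 0 → fderiv ℝ ρ p (Complex.I • w) = 0 → H4 ρ p w ≤ 0 → 0 < N →
    ∃ y₀ : ℝ, 0 < y₀ ∧ ∀ y : ℝ, 0 < y → y < y₀ → ∃ g : ℂ → V n, Differentiable ℂ g ∧
      g 0 = p - (y : ℂ) • ν ∧ deriv g 0 = w ∧ ∀ t : ℂ, ‖t‖ < N * Real.sqrt y → ρ (g t) < 0

/-- SB-BET: lower bound of the height on balls -/
def S_bet : Prop :=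
  ∀ (n : ℕ) (Ω : Set (V n)) (ρ : V n → ℝ) (p ν : V n) (h : V n → ℝ) (r₀ C : ℝ),
    Dat Ω ρ → Ht ρ p ν h r₀ C → ∃ ε₀ : ℝ, 0 < ε₀ ∧ ∀ (f F : V n → V n) (z : V n), Fr Ω f F z →
      (∀ x, ‖x‖ ≤ 4 / 5 → ‖f x - p‖ < ε₀) → ∀ L : ℝ, 0 < L →
      (∀ x, ‖x‖ ≤ 4 / 5 → ‖fderiv ℂ F (f x) ν‖ ≤ L) →
      ∀ x, ‖x‖ ≤ 3 / 5 → 1 / 5 ≤ L * h (f x)

/-- SB-GOOD: data at a point whose frame image is very close to p -/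
def S_good : Prop :=
  ∀ (n : ℕ) (Ω : Set (V n)) (ρ : V n → ℝ) (p ν : V n) (h : V n → ℝ) (r₀ C : ℝ),
    Dat Ω ρ → Ht ρ p ν h r₀ C →
    ∃ s₁ c₂ C₂ : ℝ, 0 < s₁ ∧ s₁ ≤ 1 / 10 ∧ 0 < c₂ ∧ 0 < C₂ ∧ ∀ s : ℝ, 0 < s → s ≤ s₁ →
      ∀ (f F : V n → V n) (z : V n), Fr Ω f F z →
      (∀ x, ‖x‖ ≤ 1 - s ^ 4 / 2 → ‖f x - p‖ ≤ s ^ 9) →
      ∃ (β : ℝ) (b : V n) (A : V n →L[ℂ] V n), 0 < β ∧ β ≤ h z ∧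
        (∃ x₀, ‖x₀‖ ≤ 3 / 5 ∧ h (f x₀) = β) ∧ (∀ x, ‖x‖ ≤ 3 / 5 → β ≤ h (f x)) ∧
        (∀ x, ‖x‖ ≤ 9 / 10 → c₂ * β ≤ h (f x)) ∧
        (∀ x, ‖x‖ ≤ 9 / 10 → ‖fderiv ℂ F (f x) ν‖ ≤ C₂ / β) ∧ Sym A ∧
        (∀ x, ‖x‖ ≤ 4 / 5 → ‖fderiv ℂ F (f x) ν - qf b A x‖ ≤ C₂ * s / β) ∧
        1 / 10 ≤ β * (2 * ‖b‖ + ‖A‖) ∧
        (∀ t : ℂ, ‖t‖ < 99 / 100 * h z → z + t • ν ∈ Ω)

/-- SB-EXT: from local Harnack and metric estimates to power smallness of frame images -/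
def S_ext : Prop :=
  ∀ (n : ℕ) (Ω : Set (V n)) (ρ : V n → ℝ) (p ν : V n) (h : V n → ℝ) (r₀ C : ℝ),
    Dat Ω ρ → Ht ρ p ν h r₀ C → ∀ r c : ℝ, 0 < r → r ≤ r₀ → 0 < c →
    (∀ z ∈ Ω, ‖z - p‖ < r → ∀ f F : V n → V n, Fr Ω f F z → ∀ x, ‖x‖ ≤ 3 / 5 →
      f x ∈ ball p r₀ ∧ c * h z ≤ h (f x)) →
    (∀ z ∈ Ω, ‖z - p‖ < r → ∀ v : V n,
      c * ‖v‖ ^ 8 ≤ h z ^ 3 * Pool.Agent.W737.SQ.Car Ω z v ^ 8) →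
    ∃ (m : ℕ) (s₁ : ℝ), 0 < s₁ ∧ ∀ s : ℝ, 0 < s → s < s₁ → ∀ y : ℝ, 0 < y → y ≤ s ^ m →
      ∀ f F : V n → V n, Fr Ω f F (p - (y : ℂ) • ν) →
        ∀ x, ‖x‖ ≤ 1 - s ^ 4 / 2 → ‖f x - p‖ ≤ s ^ 9

/-- SB-CMP: frame images of points in compact sets stay in compact sets -/
def S_cmp : Prop :=
  ∀ (n : ℕ) (Ω : Set (V n)) (ρ : V n → ℝ), Dat Ω ρ → ∀ (K : Set (V n)) (t : ℝ), IsCompact K →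
    K ⊆ Ω → t < 1 → ∃ K' : Set (V n), IsCompact K' ∧ K' ⊆ Ω ∧ ∀ z ∈ K, ∀ f F : V n → V n,
      Fr Ω f F z → ∀ x, ‖x‖ ≤ t → f x ∈ K'

end Pool.Agent.W737.SB
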