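import Pool.Agent.W737.SB.Defs

/-!
# Frames, good data, the contraction step (project SB)
-/

set_option autoImplicit false

open Metric Set

namespace Pool.Agent.W737.SB

variable {n : ℕ}

theorem Dat.isOpen {Ω : Set (V n)} {ρ : V n → ℝ} (D : Dat Ω ρ) : IsOpen Ω := by
  rw [D.eq]; exact isOpen_lt D.smooth.continuous continuous_const

/-- composition of a frame with an automorphism -/
theorem Fr.comp (haut : S_aut) {Ω : Set (V n)} {f F : V n → V n} {z : V n} (H : Fr Ω f F z)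
    {z' : V n} (hz' : z' ∈ Ω) :
    Fr Ω (fun x => f (aut (F z') x)) (fun w => aut (F z') (F w)) z' := by
  have ha : ‖F z'‖ < 1 := by simpa using H.hFm hz'
  obtain ⟨h1, h2, h3, h4, h5, h6, h7, h8⟩ := haut n (F z') ha
  exact {
    hf := H.hf.comp h1 h2
    hfm := fun x hx => H.hfm (h2 hx)
    hF := h1.comp H.hF H.hFm
    hFm := fun w hw => h2 (H.hFm hw)
    left := fun ζ hζ => by
      show aut (F z') (F (f (aut (F z') ζ))) = ζ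
      rw [H.left _ (h2 hζ), h3 ζ hζ]
    right := fun w hw => by
      show f (aut (F z') (aut (F z') (F w))) = w
      rw [h3 _ (H.hFm hw), H.right w hw]
    base := by
      show f (aut (F z') 0) = z'
      rw [h4, H.right z' hz'] }

theorem Dat.exists_frame (haut : S_aut) {Ω : Set (V n)} {ρ : V n → ℝ} (D : Dat Ω ρ) {z : V n}
    (hz : z ∈ Ω) : ∃ f F, Fr Ω f F z := by
  obtain ⟨f, F, z0, H⟩ := D.frame
  exact ⟨_, _, H.comp haut hz⟩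

theorem Fr.mem {Ω : Set (V n)} {f F : V n → V n} {z : V n} (H : Fr Ω f F z) : z ∈ Ω := by
  have := H.hfm (mem_ball_self one_pos)
  rwa [H.base] at this

theorem Fr.zero {Ω : Set (V n)} {f F : V n → V n} {z : V n} (H : Fr Ω f F z) : F z = 0 := by
  have := H.left 0 (mem_ball_self one_pos)
  rwa [H.base] at this

/-- two frames at the same point -/
theorem Fr.change {Ω : Set (V n)} {f F f₂ F₂ : V n → V n} {z : V n}
    (H : Fr Ω f F z) (H₂ : Fr Ω f₂ F₂ z) {x : V n} (hx : ‖x‖ < 1) :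
    ‖F (f₂ x)‖ ≤ ‖x‖ ∧ f (F (f₂ x)) = f₂ x := by
  refine ⟨?_, H.right _ (H₂.hfm (by simpa using hx))⟩
  apply Complex.norm_le_norm_of_mapsTo_ball (f := fun y => F (f₂ y)) (R := 1)
  · exact H.hF.comp H₂.hf H₂.hfm
  · exact fun y hy => ball_subset_closedBall (H.hFm (H₂.hfm hy))
  · show F (f₂ 0) = 0
    rw [H₂.base, H.zero]
  · exact hx

/-- good data of a frame -/
structure GD (Ω : Set (V n)) (ν : V n) (h : V n → ℝ) (c₂ C₂ s : ℝ) (f F : V n → V n)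
    (z : V n) (β : ℝ) (b : V n) (A : V n →L[ℂ] V n) : Prop where
  β0 : 0 < β
  βh : β ≤ h z
  att : ∃ x₀, ‖x₀‖ ≤ 3 / 5 ∧ h (f x₀) = β
  lo : ∀ x, ‖x‖ ≤ 3 / 5 → β ≤ h (f x)
  lo9 : ∀ x, ‖x‖ ≤ 9 / 10 → c₂ * β ≤ h (f x)
  up : ∀ x, ‖x‖ ≤ 9 / 10 → ‖fderiv ℂ F (f x) ν‖ ≤ C₂ / β
  sym : Sym A
  appr : ∀ x, ‖x‖ ≤ 4 / 5 → ‖fderiv ℂ F (f x) ν - qf b A x‖ ≤ C₂ * s / β
  big : 1 / 10 ≤ β * (2 * ‖b‖ + ‖A‖)
  vert : ∀ t : ℂ, ‖t‖ < 99 / 100 * h z → z + t • ν ∈ Ω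

/-- all frames at z have small image -/
def Reg (Ω : Set (V n)) (p : V n) (s : ℝ) (z : V n) : Prop :=
  ∀ f F : V n → V n, Fr Ω f F z → ∀ x, ‖x‖ ≤ 1 - s ^ 4 / 2 → ‖f x - p‖ ≤ s ^ 9

/-- the context -/
structure Ctx (Ω : Set (V n)) (ρ : V n → ℝ) (p ν : V n) (h : V n → ℝ)
    (r₀ C s₁ c₂ C₂ : ℝ) : Prop where
  D : Dat Ω ρ
  T : Ht ρ p ν h r₀ C
  s1 : 0 < s₁
  s1' : s₁ ≤ 1 / 10
  c2 : 0 < c₂
  C2 : 0 < C₂
  good : ∀ s : ℝ, 0 < s → s ≤ s₁ → ∀ (f F : V n → V n) (z : V n), Fr Ω f F z →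
    (∀ x, ‖x‖ ≤ 1 - s ^ 4 / 2 → ‖f x - p‖ ≤ s ^ 9) →
    ∃ (β : ℝ) (b : V n) (A : V n →L[ℂ] V n), GD Ω ν h c₂ C₂ s f F z β b A

theorem exists_ctx (hg : S_good) {Ω : Set (V n)} {ρ : V n → ℝ} {p ν : V n} {h : V n → ℝ}
    {r₀ C : ℝ} (D : Dat Ω ρ) (T : Ht ρ p ν h r₀ C) :
    ∃ s₁ c₂ C₂ : ℝ, Ctx Ω ρ p ν h r₀ C s₁ c₂ C₂ := by
  obtain ⟨s₁, c₂, C₂, h1, h2, h3, h4, h5⟩ := hg n Ω ρ p ν h r₀ C D T
  refine ⟨s₁, c₂, C₂, D, T, h1, h2, h3, h4, ?_⟩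
  intro s hs hs1 f F z H hr
  obtain ⟨β, b, A, g1, g2, g3, g4, g5, g6, g7, g8, g9, g10⟩ := h5 s hs hs1 f F z H hr
  exact ⟨β, b, A, g1, g2, g3, g4, g5, g6, g7, g8, g9, g10⟩

/-- bound on the square of the operator in some frame -/
def QB (Ω : Set (V n)) (ν : V n) (h : V n → ℝ) (c₂ C₂ s : ℝ) (z : V n) (Q : ℝ) : Prop :=
  ∃ f F : V n → V n, Fr Ω f F z ∧ ∃ (β : ℝ) (b : V n) (A : V n →L[ℂ] V n),
    GD Ω ν h c₂ C₂ s f F z β b A ∧ ∃ M : HH n →L[ℂ] HH n, IsJ M ∧ (∀ x, fld M x = qf b A x) ∧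
      h z ^ 2 * ‖M.comp M‖ ≤ Q

theorem QB.mono {Ω : Set (V n)} {ν : V n} {h : V n → ℝ} {c₂ C₂ s s' : ℝ} {z : V n} {Q Q' : ℝ}
    (hC : 0 < C₂) (hs : s ≤ s') (hQ : Q ≤ Q') (H : QB Ω ν h c₂ C₂ s z Q) :
    QB Ω ν h c₂ C₂ s' z Q' := by
  obtain ⟨f, F, hF, β, b, A, g, M, m1, m2, m3⟩ := H
  refine ⟨f, F, hF, β, b, A, ⟨g.β0, g.βh, g.att, g.lo, g.lo9, g.up, g.sym, ?_, g.big, g.vert⟩,
    M, m1, m2, m3.trans hQ⟩
  intro x hx
  refine (g.appr x hx).trans ?_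
  have := g.β0
  gcongr

section vert

variable {Ω : Set (V n)} {f F : V n → V n} {z ν : V n} {R : ℝ}

theorem Fr.vert_bound (H : Fr Ω f F z) (hR : 0 < R)
    (hv : ∀ t : ℂ, ‖t‖ < R → z + t • ν ∈ Ω) {t : ℂ} (ht : ‖t‖ < R) :
    ‖F (z + t • ν)‖ ≤ ‖t‖ / R := by
  have h1 : DifferentiableOn ℂ (fun t : ℂ => F (z + t • ν)) (ball 0 R) := by
    apply H.hF.comp
    · exact ((differentiable_id.smul_const ν).const_add z).differentiableOn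
    · intro t ht
      exact hv t (by simpa using ht)
  have h2 : (fun t : ℂ => F (z + t • ν)) 0 = 0 := by
    simp only [zero_smul, add_zero]
    exact H.zero
  have h3 : MapsTo (fun t : ℂ => F (z + t • ν)) (ball 0 R)
      (closedBall ((fun t : ℂ => F (z + t • ν)) 0) 1) := by
    intro t ht
    rw [h2]
    exact ball_subset_closedBall (H.hFm (hv t (by simpa using ht)))
  have h4 := Complex.dist_le_div_mul_dist_of_mapsTo_ball h1 h3 (z := t) (by simpa using ht)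
  have h5 : F (z + (0 : ℂ) • ν) = 0 := h2
  rw [h5, dist_zero_right, dist_zero_right] at h4
  rw [div_eq_inv_mul, ← one_div]
  exact h4

theorem Fr.vert_deriv (H : Fr Ω f F z) (hΩ : IsOpen Ω) (hR : 0 < R)
    (hv : ∀ t : ℂ, ‖t‖ < R → z + t • ν ∈ Ω) : ‖fderiv ℂ F z ν‖ ≤ 1 / R := by
  have h1 : DifferentiableOn ℂ (fun t : ℂ => z + t • ν) (ball 0 R) :=
    ((differentiable_id.smul_const ν).const_add z).differentiableOn
  have h2 : HasDerivAt (fun t : ℂ => z + t • ν) ((1 : ℂ) • ν) 0 :=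
    ((hasDerivAt_id (0 : ℂ)).smul_const ν).const_add z
  have := SQ.norm_fderiv_disc_le hΩ H.hF H.hFm hR h1 (fun t ht => hv t (by simpa using ht))
  rw [h2.deriv] at this
  simpa using this

end vert

/-- coefficients of a quadratic field are determined -/
theorem ent' (hent : S_ent) (hqu : S_qu) {M : HH n →L[ℂ] HH n} (hM : IsJ M) {b : V n}
    {A : V n →L[ℂ] V n} (hf : ∀ x, fld M x = qf b A x) :
    ‖b‖ ≤ ‖M‖ ∧ ‖A‖ ≤ 2 * ‖M‖ ∧ ‖M‖ ^ 2 ≤ 20 * (‖b‖ ^ 2 + ‖M.comp M‖) := by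
  obtain ⟨b', A', d, h1, h2, h3, h4, h5, h6, h7, h8⟩ := hent.1 n M hM
  have h9 := hqu n b b' A A' 0 1 one_pos le_rfl le_rfl (by
    intro x _
    rw [← hf x, ← h2 x, sub_self, norm_zero])
  have e1 : b = b' := by
    have := h9.1
    rw [← sub_eq_zero]
    exact norm_le_zero_iff.1 this
  have e2 : A = A' := by
    have := h9.2
    rw [mul_zero, zero_div] at this
    rw [← sub_eq_zero]
    exact norm_le_zero_iff.1 this
  subst e1 e2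
  exact ⟨h3, h4, h8⟩

/-- basic bounds -/
theorem GD.bounds (hent : S_ent) (hqu : S_qu) {Ω : Set (V n)} (hΩ : IsOpen Ω) {ν : V n}
    {h : V n → ℝ}
    {c₂ C₂ s : ℝ} {f F : V n → V n} {z : V n} {β : ℝ} {b : V n} {A : V n →L[ℂ] V n}
    (hC : 0 < C₂) (hs0 : 0 < s) (hs : C₂ * s ≤ 1 / 400)
    (H : Fr Ω f F z) (g : GD Ω ν h c₂ C₂ s f F z β b A) {M : HH n →L[ℂ] HH n} (hM : IsJ M)
    (hf : ∀ x, fld M x = qf b A x) :
    1 ≤ 40 * ‖M‖ * β ∧ ‖fderiv ℂ F z ν‖ ≤ 2 / h z ∧ ‖fderiv ℂ F z ν - b‖ ≤ C₂ * s / β ∧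
      h z ^ 2 * ‖M‖ ^ 2 ≤ 320 + 40 * (h z ^ 2 * ‖M.comp M‖) := by
  obtain ⟨e1, e2, e3⟩ := ent' hent hqu hM hf
  have hβ := g.β0
  have hy : 0 < h z := hβ.trans_le g.βh
  have b1 : 1 ≤ 40 * ‖M‖ * β := by
    have h1 := g.big
    have h2 : β * (2 * ‖b‖ + ‖A‖) ≤ β * (4 * ‖M‖) := by
      apply mul_le_mul_of_nonneg_left _ hβ.le
      linarith
    linarith
  have b2 : ‖fderiv ℂ F z ν‖ ≤ 2 / h z := by
    have h1 := H.vert_deriv hΩ (R := 99 / 100 * h z) (by positivity) g.vert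
    refine h1.trans ?_
    rw [div_le_div_iff₀ (by positivity) hy]
    linarith
  have b3 : ‖fderiv ℂ F z ν - b‖ ≤ C₂ * s / β := by
    have h1 := g.appr 0 (by rw [norm_zero]; norm_num)
    rw [H.base] at h1
    simpa [qf] using h1
  refine ⟨b1, b2, b3, ?_⟩
  -- the norm of b
  have h1 : C₂ * s / β ≤ ‖M‖ / 10 := by
    rw [div_le_iff₀ hβ]
    have : (0:ℝ) ≤ ‖M‖ * β := by positivity
    calc C₂ * s ≤ 1 / 400 := hs
      _ ≤ 1 / 400 * (40 * ‖M‖ * β) := by linarith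
      _ = ‖M‖ / 10 * β := by ring
  have h2 : ‖b‖ ≤ 2 / h z + ‖M‖ / 10 := by
    have : ‖b‖ ≤ ‖fderiv ℂ F z ν‖ + ‖fderiv ℂ F z ν - b‖ := by
      have := norm_sub_le (fderiv ℂ F z ν) (fderiv ℂ F z ν - b)
      simpa using this
    linarith
  have h3 : h z * ‖b‖ ≤ 2 + h z * ‖M‖ / 10 := by
    have := mul_le_mul_of_nonneg_left h2 hy.le
    calc h z * ‖b‖ ≤ h z * (2 / h z + ‖M‖ / 10) := this
      _ = 2 + h z * ‖M‖ / 10 := by field_simp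
  have h4 : 0 ≤ h z * ‖b‖ := by positivity
  have h5 : 0 ≤ h z * ‖M‖ := by positivity
  have h6 : (h z * ‖b‖) ^ 2 ≤ (2 + h z * ‖M‖ / 10) ^ 2 := by gcongr
  have h7 : h z ^ 2 * ‖M‖ ^ 2 ≤ 20 * ((h z * ‖b‖) ^ 2 + h z ^ 2 * ‖M.comp M‖) := by
    have := mul_le_mul_of_nonneg_left e3 (sq_nonneg (h z))
    nlinarith
  have h8 : 0 ≤ h z ^ 2 * ‖M.comp M‖ := by positivity
  have h9 : h z ^ 2 * ‖M‖ ^ 2 = (h z * ‖M‖) ^ 2 := by ring
  rw [h9] at h7 ⊢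
  nlinarith [sq_nonneg (h z * ‖M‖ - 20)]

end Pool.Agent.W737.SB
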