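import Pool.Agent.W737.SB.Chain

/-!
# The hard level (project SB)
-/

set_option autoImplicit false

open Metric Set

namespace Pool.Agent.W737.SB

variable {n : ℕ}

theorem two_rpow_le {γ : ℝ} (hγ : γ ≤ 1 / 10) : (2 : ℝ) ^ γ ≤ 9 / 8 := by
  have h1 : (2 : ℝ) ^ γ ≤ 2 ^ (1 / 10 : ℝ) :=
    Real.rpow_le_rpow_of_exponent_le (by norm_num) hγ
  refine h1.trans ?_
  have h2 : (9 / 8 : ℝ) = ((9 / 8 : ℝ) ^ (10 : ℝ)) ^ (1 / 10 : ℝ) := by
    rw [← Real.rpow_mul (by norm_num)]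
    norm_num
  rw [h2]
  apply Real.rpow_le_rpow (by norm_num) _ (by norm_num)
  have h3 : (9 / 8 : ℝ) ^ (10 : ℝ) = (9 / 8 : ℝ) ^ (10 : ℕ) := by
    rw [← Real.rpow_natCast]; norm_num
  rw [h3]
  norm_num

theorem Ctx.h_line {Ω : Set (V n)} {ρ : V n → ℝ} {p ν : V n} {h : V n → ℝ} {r₀ C s₁ c₂ C₂ : ℝ}
    (X : Ctx Ω ρ p ν h r₀ C s₁ c₂ C₂) {y : ℝ} (hy : 0 < y) (hyr : y < r₀) :
    p - (y : ℂ) • ν ∈ ball p r₀ ∧ h (p - (y : ℂ) • ν) = y ∧ p - (y : ℂ) • ν ∈ Ω := by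
  have e0 : p - (y : ℂ) • ν = p + ((-y : ℝ) : ℂ) • ν := by
    push_cast; rw [neg_smul, sub_eq_add_neg]
  have e1 : p - (y : ℂ) • ν ∈ ball p r₀ := by
    rw [mem_ball, dist_eq_norm]
    have : p - (y : ℂ) • ν - p = -((y : ℂ) • ν) := by abel
    rw [this, norm_neg, norm_smul, X.T.hν, mul_one, Complex.norm_real, Real.norm_of_nonneg hy.le]
    exact hyr
  have e2 : h (p - (y : ℂ) • ν) = y := by
    rw [e0, X.T.shift p (mem_ball_self X.T.r0) (-y) (by rw [← e0]; exact e1), X.T.h_p]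
    ring
  exact ⟨e1, e2, (X.h_pos e1).2 (by rw [e2]; exact hy)⟩

theorem hard (haut : S_aut) (hcon : S_con) (hent : S_ent) (hqu : S_qu) (hcmp : S_cmp)
    {Ω : Set (V n)} {ρ : V n → ℝ} {p ν : V n} {h : V n → ℝ}
    {r₀ C s₁ c₂ C₂ : ℝ} (X : Ctx Ω ρ p ν h r₀ C s₁ c₂ C₂) {m : ℕ} (hm : 1 ≤ m) {sx : ℝ}
    (hsx : 0 < sx) (hreg : ∀ s : ℝ, 0 < s → s < sx → ∀ y : ℝ, 0 < y → y ≤ s ^ m →
      Reg Ω p s (p - (y : ℂ) • ν)) :
    ∃ y₀ K γ : ℝ, 0 < y₀ ∧ y₀ ≤ 1 ∧ y₀ < r₀ ∧ 0 < K ∧ 0 < γ ∧ γ ≤ 1 / m ∧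
      ∀ y : ℝ, 0 < y → y ≤ y₀ →
        QB Ω ν h c₂ C₂ (y ^ (1 / m : ℝ)) (p - (y : ℂ) • ν) (K * y ^ γ) := by
  obtain ⟨s₂, C₆, hs2, hs2a, hs2b, hC6, hstep⟩ := step haut hcon hent hqu X
  have hr0 := X.T.r0
  have hm0 : (0 : ℝ) < m := by exact_mod_cast hm
  have hm1 : (1 : ℝ) ≤ m := by exact_mod_cast hm
  set ss : ℝ := min (sx / 2) (min s₂ (r₀ / 2)) with hss
  have hss0 : 0 < ss := lt_min (by positivity) (lt_min hs2 (by positivity))
  have e1 : ss ≤ sx / 2 := min_le_left _ _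
  have e2 : ss ≤ s₂ := (min_le_right _ _).trans (min_le_left _ _)
  have e3 : ss ≤ r₀ / 2 := (min_le_right _ _).trans (min_le_right _ _)
  have e4 : ss ≤ 1 / 10 := e2.trans (hs2a.trans X.s1')
  set y₀ : ℝ := min (r₀ / 2) (ss ^ m) with hy0
  have hy00 : 0 < y₀ := lt_min (by positivity) (by positivity)
  have hy0r : y₀ ≤ r₀ / 2 := min_le_left _ _
  have hy0s : y₀ ≤ ss ^ m := min_le_right _ _
  have hy01 : y₀ ≤ 1 := hy0s.trans (pow_le_one₀ hss0.le (by linarith))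
  have hσ : ∀ y : ℝ, 0 < y → y ≤ y₀ → y ^ (1 / m : ℝ) ≤ ss := by
    intro y hy hyy
    have h1 : y ^ (1 / m : ℝ) ≤ (ss ^ m) ^ (1 / m : ℝ) :=
      Real.rpow_le_rpow hy.le (hyy.trans hy0s) (by positivity)
    refine h1.trans (le_of_eq ?_)
    rw [← Real.rpow_natCast, ← Real.rpow_mul hss0.le, mul_one_div_cancel hm0.ne', Real.rpow_one]
  have hσ0 : ∀ y : ℝ, 0 < y → 0 < y ^ (1 / m : ℝ) := fun y hy => Real.rpow_pos_of_pos hy _
  have hσm : ∀ y : ℝ, 0 < y → (y ^ (1 / m : ℝ)) ^ m = y := by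
    intro y hy
    rw [← Real.rpow_natCast, ← Real.rpow_mul hy.le, one_div_mul_cancel hm0.ne', Real.rpow_one]
  have hReg : ∀ y : ℝ, 0 < y → y ≤ y₀ → Reg Ω p (y ^ (1 / m : ℝ)) (p - (y : ℂ) • ν) := by
    intro y hy hyy
    apply hreg _ (hσ0 y hy) _ y hy (hσm y hy).ge
    have := hσ y hy hyy
    linarith
  -- start
  set Kc : Set (V n) := (fun y : ℝ => p - (y : ℂ) • ν) '' (Icc (y₀ / 2) y₀) with hKc
  have hcont : Continuous (fun y : ℝ => p - (y : ℂ) • ν) :=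
    continuous_const.sub (Complex.continuous_ofReal.smul continuous_const)
  have hKcc : IsCompact Kc := isCompact_Icc.image hcont
  have hKcΩ : Kc ⊆ Ω := by
    rintro _ ⟨y, hy, rfl⟩
    exact (X.h_line (by linarith [hy.1]) (by linarith [hy.2])).2.2
  obtain ⟨Q₀, hQ0, hstart⟩ := start haut hcmp hent hqu X Kc hKcc hKcΩ
  set γ : ℝ := 1 / (10 * m) with hγ
  have hγ0 : 0 < γ := by positivity
  have hγ1 : γ ≤ 1 / 10 := by
    rw [hγ, div_le_div_iff₀ (by positivity) (by norm_num)]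
    linarith
  have hγm : γ ≤ 1 / m := by
    rw [hγ, div_le_div_iff₀ (by positivity) hm0]
    linarith
  set K : ℝ := max (Q₀ / (y₀ / 2) ^ γ) (20 * C₆) with hK
  have hK1 : Q₀ / (y₀ / 2) ^ γ ≤ K := le_max_left _ _
  have hK2 : 20 * C₆ ≤ K := le_max_right _ _
  have hK0 : 0 < K := lt_of_lt_of_le (by positivity) hK2
  refine ⟨y₀, K, γ, hy00, hy01, by linarith, hK0, hγ0, hγm, ?_⟩
  have main : ∀ k : ℕ, ∀ y : ℝ, 0 < y → y ≤ y₀ → y₀ ≤ 2 ^ (k + 1) * y →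
      QB Ω ν h c₂ C₂ (y ^ (1 / m : ℝ)) (p - (y : ℂ) • ν) (K * y ^ γ) := by
    intro k
    induction k with
    | zero =>
      intro y hy hyy hyk
      have h1 : y₀ / 2 ≤ y := by
        norm_num at hyk
        linarith
      have h2 := hstart (y ^ (1 / m : ℝ)) (hσ0 y hy) ((hσ y hy hyy).trans (e2.trans hs2a))
        ((hσ y hy hyy).trans e3) (p - (y : ℂ) • ν) ⟨y, ⟨h1, hyy⟩, rfl⟩
        (X.h_line hy (by linarith)).1 (hReg y hy hyy)
      refine h2.mono X.C2 le_rfl ?_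
      have h3 : (y₀ / 2) ^ γ ≤ y ^ γ := Real.rpow_le_rpow (by positivity) h1 hγ0.le
      have h4 : 0 < (y₀ / 2) ^ γ := Real.rpow_pos_of_pos (by positivity) _
      calc Q₀ = Q₀ / (y₀ / 2) ^ γ * (y₀ / 2) ^ γ := by field_simp
        _ ≤ K * y ^ γ := by gcongr
    | succ k ih =>
      intro y hy hyy hyk
      by_cases hc : y₀ ≤ 2 ^ (k + 1) * y
      · exact ih y hy hyy hc
      push Not at hc
      have hk : (1 : ℝ) ≤ 2 ^ k := one_le_pow₀ (by norm_num)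
      have h2y : 2 * y ≤ y₀ := by
        rw [pow_succ] at hc
        nlinarith
      have h1 := ih (2 * y) (by positivity) h2y (by
        rw [pow_succ] at hyk
        linarith)
      obtain ⟨l1, l2, l3⟩ := X.h_line (y := 2 * y) (by positivity) (by linarith)
      obtain ⟨l4, l5, l6⟩ := X.h_line (y := y) hy (by linarith)
      have hback : p - ((2 * y : ℝ) : ℂ) • ν
          + ((h (p - ((2 * y : ℝ) : ℂ) • ν) / 2 : ℝ) : ℂ) • ν = p - (y : ℂ) • ν := by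
        rw [l2]
        have : (2 * y / 2 : ℝ) = y := by ring
        rw [this]
        push_cast
        rw [two_mul, add_smul]
        abel
      have h3 := hstep ((2 * y) ^ (1 / m : ℝ)) (y ^ (1 / m : ℝ)) (hσ0 y hy)
        (Real.rpow_le_rpow hy.le (by linarith) (by positivity))
        ((hσ (2 * y) (by positivity) h2y).trans e2) _ l1 (by rw [hback]; exact l4) _ h1
        (by rw [hback]; exact hReg y hy hyy)
      rw [hback] at h3
      refine h3.mono X.C2 le_rfl ?_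
      have hy1 : y ≤ 1 := hyy.trans hy01
      have g1 : (2 * y) ^ γ ≤ 9 / 8 * y ^ γ := by
        rw [Real.mul_rpow (by norm_num) hy.le]
        exact mul_le_mul_of_nonneg_right (two_rpow_le hγ1) (Real.rpow_nonneg hy.le _)
      have g2 : (2 * y) ^ (1 / m : ℝ) ≤ 2 * y ^ γ := by
        rw [Real.mul_rpow (by norm_num) hy.le]
        have a1 : (2 : ℝ) ^ (1 / m : ℝ) ≤ 2 ^ (1 : ℝ) := by
          apply Real.rpow_le_rpow_of_exponent_le (by norm_num)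
          rw [div_le_one hm0]
          exact hm1
        rw [Real.rpow_one] at a1
        have a2 : y ^ (1 / m : ℝ) ≤ y ^ γ := Real.rpow_le_rpow_of_exponent_ge hy hy1 hγm
        have a3 := hσ0 y hy
        gcongr
      have g3 : 0 < y ^ γ := Real.rpow_pos_of_pos hy _
      have g4 : 4 / 5 * (K * (2 * y) ^ γ) ≤ 4 / 5 * (K * (9 / 8 * y ^ γ)) := by gcongr
      have g5 : C₆ * (2 * y) ^ (1 / m : ℝ) ≤ C₆ * (2 * y ^ γ) := by gcongr
      have g6 : 20 * C₆ * y ^ γ ≤ K * y ^ γ := by gcongr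
      linarith
  intro y hy hyy
  obtain ⟨k, hk⟩ := pow_unbounded_of_one_lt (y₀ / y) (by norm_num : (1:ℝ) < 2)
  apply main k y hy hyy
  rw [div_lt_iff₀ hy] at hk
  have : (2:ℝ) ^ k * y ≤ 2 ^ (k + 1) * y := by
    rw [pow_succ]
    have : 0 < (2:ℝ) ^ k * y := by positivity
    linarith
  linarith

end Pool.Agent.W737.SB
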