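import Mathlib

/-!
# One variable lemma for the growth of the metric along a line (project SB)
-/

set_option autoImplicit false

open Set Filter Topology

namespace Pool.Agent.W737.SB

/-- the sign of the derivative of kn -/
theorem kn_neg {y₁ c₂ : ℝ} (hy₁ : 0 < y₁) (hc : 0 < c₂) {kn kn' K : ℝ → ℝ}
    (h1 : ∀ y ∈ Ioo 0 y₁, HasDerivAt kn (kn' y) y)
    (h2 : ∀ y ∈ Ioo 0 y₁, (c₂ / y) ^ 2 ≤ kn y)
    (h3 : ∀ y ∈ Ioo 0 y₁, ∃ d : ℝ, c₂ / y ≤ |d| ∧ |kn' y + 4 * d * kn y| ≤ K y / y * kn y)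
    (h4 : ∀ y ∈ Ioo 0 y₁, K y ≤ c₂) : ∀ y ∈ Ioo 0 y₁, kn' y < 0 := by
  have hpos : ∀ y ∈ Ioo 0 y₁, 0 < kn y := fun y hy =>
    lt_of_lt_of_le (by have := hy.1; positivity) (h2 y hy)
  have hne : ∀ y ∈ Ioo 0 y₁, kn' y ≠ 0 := by
    intro y hy h0
    obtain ⟨d, hd, hd2⟩ := h3 y hy
    rw [h0, zero_add, abs_mul, abs_mul, abs_of_pos (hpos y hy), abs_of_pos (by norm_num : (0:ℝ) < 4)]
      at hd2
    have h5 : 4 * |d| ≤ K y / y := le_of_mul_le_mul_right hd2 (hpos y hy)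
    have h6 : K y / y ≤ c₂ / y := div_le_div_of_nonneg_right (h4 y hy) hy.1.le
    have h7 : 0 < c₂ / y := div_pos hc hy.1
    linarith
  rcases hasDerivWithinAt_forall_lt_or_forall_gt_of_forall_ne (convex_Ioo 0 y₁)
    (fun y hy => (h1 y hy).hasDerivWithinAt) hne with h | h
  · exact h
  exfalso
  have hcont : ContinuousOn kn (Ioo 0 y₁) := fun y hy => (h1 y hy).continuousAt.continuousWithinAt
  have hmono : StrictMonoOn kn (Ioo 0 y₁) := by
    apply strictMonoOn_of_deriv_pos (convex_Ioo 0 y₁) hcont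
    intro y hy
    rw [interior_Ioo] at hy
    rw [(h1 y hy).deriv]
    exact h y hy
  -- choose y small
  set B := kn (y₁ / 2) with hB
  have hmem : y₁ / 2 ∈ Ioo 0 y₁ := ⟨by positivity, by linarith⟩
  have hB0 : 0 < B := hpos _ hmem
  set y := min (y₁ / 4) (c₂ / (Real.sqrt B + 1)) with hy
  have hs : 0 ≤ Real.sqrt B := Real.sqrt_nonneg B
  have hy0 : 0 < y := lt_min (by positivity) (by positivity)
  have hyl : y ≤ y₁ / 4 := min_le_left _ _
  have hyr : y ≤ c₂ / (Real.sqrt B + 1) := min_le_right _ _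
  have hym : y ∈ Ioo 0 y₁ := ⟨hy0, by linarith⟩
  have h5 : kn y < B := hmono hym hmem (by linarith)
  have h6 := h2 y hym
  have h7 : Real.sqrt B + 1 ≤ c₂ / y := by
    rw [le_div_iff₀ hy0]
    rw [le_div_iff₀ (by positivity)] at hyr
    linarith
  have h8 : B < (c₂ / y) ^ 2 := by
    have := Real.sq_sqrt hB0.le
    nlinarith
  linarith

/-- growth of kv along the line -/
theorem line_bound {y₁ c₂ : ℝ} (hy₁ : 0 < y₁) (hc : 0 < c₂) {kn kv kn' kv' K Θ : ℝ → ℝ}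
    (h1 : ∀ y ∈ Ioo 0 y₁, HasDerivAt kn (kn' y) y)
    (h1' : ∀ y ∈ Ioo 0 y₁, HasDerivAt kv (kv' y) y)
    (h2 : ∀ y ∈ Ioo 0 y₁, (c₂ / y) ^ 2 ≤ kn y)
    (h2' : ∀ y ∈ Ioo 0 y₁, 0 < kv y)
    (h3 : ∀ y ∈ Ioo 0 y₁, ∃ d : ℝ, c₂ / y ≤ |d| ∧ |kn' y + 4 * d * kn y| ≤ K y / y * kn y ∧
      (0 < d → kv' y ≤ (-2 * d + K y / y) * kv y))
    (h4 : ∀ y ∈ Ioo 0 y₁, K y ≤ c₂) (h4' : ∀ y ∈ Ioo 0 y₁, 0 ≤ K y)
    (h5 : ∀ y ∈ Ioo 0 y₁, HasDerivAt Θ (2 * K y / y) y)
    {y y' : ℝ} (hy : 0 < y) (hyy : y ≤ y') (hy' : y' < y₁) :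
    c₂ / y * (kv y' / Real.sqrt (kn y')) * Real.exp (-(Θ y' - Θ y)) ≤ kv y := by
  have hneg := kn_neg hy₁ hc h1 h2 (fun y hy => by
    obtain ⟨d, a, b, _⟩ := h3 y hy
    exact ⟨d, a, b⟩) h4
  have hpos : ∀ y ∈ Ioo 0 y₁, 0 < kn y := fun y hy =>
    lt_of_lt_of_le (by have := hy.1; positivity) (h2 y hy)
  -- the function W
  set W : ℝ → ℝ := fun t => Real.log (kv t) - (1 / 2) * Real.log (kn t) - Θ t with hW
  have hWd : ∀ t ∈ Ioo 0 y₁, HasDerivAt W
      (kv' t / kv t - (1 / 2) * (kn' t / kn t) - 2 * K t / t) t := by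
    intro t ht
    exact (((h1' t ht).log (h2' t ht).ne').sub
      (((h1 t ht).log (hpos t ht).ne').const_mul (1 / 2))).sub (h5 t ht)
  have hle : ∀ t ∈ Ioo 0 y₁, kv' t / kv t - (1 / 2) * (kn' t / kn t) - 2 * K t / t ≤ 0 := by
    intro t ht
    obtain ⟨d, hd1, hd2, hd3⟩ := h3 t ht
    have hk := hpos t ht
    have hkv := h2' t ht
    have hK : 0 ≤ K t / t := div_nonneg (h4' t ht) ht.1.le
    have h7 : K t / t ≤ c₂ / t := div_le_div_of_nonneg_right (h4 t ht) ht.1.le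
    have h8 : 0 < c₂ / t := div_pos hc ht.1
    have hd : 0 < d := by
      by_contra hcon
      push Not at hcon
      have e1 := (abs_le.1 hd2).1
      have e2 := hneg t ht
      have e3 : |d| = -d := abs_of_nonpos hcon
      rw [e3] at hd1
      -- kn' ≥ -4 d kn - K/t kn ≥ (4 c2/t - K/t) kn > 0
      have e4 : -(K t / t * kn t) - 4 * d * kn t ≤ kn' t := by linarith
      have e5 : 0 < -(K t / t * kn t) - 4 * d * kn t := by
        have : 0 < (-(K t / t) - 4 * d) * kn t := mul_pos (by linarith) hk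
        linarith
      linarith
    have e1 := hd3 hd
    have e2 : kv' t / kv t ≤ -2 * d + K t / t := by
      rw [div_le_iff₀ hkv]
      exact e1
    have e3 : -(4 * d) - K t / t ≤ kn' t / kn t := by
      rw [le_div_iff₀ hk]
      have := (abs_le.1 hd2).1
      linarith
    have e4 : 2 * K t / t = 2 * (K t / t) := by ring
    rw [e4]
    linarith
  have hanti : AntitoneOn W (Ioo 0 y₁) := by
    apply antitoneOn_of_deriv_nonpos (convex_Ioo 0 y₁)
    · exact fun t ht => (hWd t ht).continuousAt.continuousWithinAt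
    · intro t ht
      rw [interior_Ioo] at ht
      exact (hWd t ht).differentiableAt.differentiableWithinAt
    · intro t ht
      rw [interior_Ioo] at ht
      rw [(hWd t ht).deriv]
      exact hle t ht
  have hm : y ∈ Ioo 0 y₁ := ⟨hy, by linarith⟩
  have hm' : y' ∈ Ioo 0 y₁ := ⟨by linarith, hy'⟩
  have hWW := hanti hm hm' hyy
  simp only [hW] at hWW
  have g1 : Real.log (c₂ / y) ≤ (1 / 2) * Real.log (kn y) := by
    have := Real.log_le_log (by positivity) (h2 y hm)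
    rw [Real.log_pow] at this
    push_cast at this
    linarith
  have hkv' := h2' y' hm'
  have hkn' := hpos y' hm'
  have hs : 0 < Real.sqrt (kn y') := Real.sqrt_pos.2 hkn'
  have hcy : 0 < c₂ / y := by positivity
  rw [← Real.exp_log (h2' y hm)]
  have g2 : c₂ / y * (kv y' / Real.sqrt (kn y')) * Real.exp (-(Θ y' - Θ y))
      = Real.exp (Real.log (c₂ / y) + (Real.log (kv y') - (1 / 2) * Real.log (kn y'))
        + -(Θ y' - Θ y)) := by
    rw [Real.exp_add, Real.exp_add, Real.exp_sub, Real.exp_log hcy, Real.exp_log hkv']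
    congr 3
    rw [← Real.log_rpow hkn', Real.exp_log (Real.rpow_pos_of_pos hkn' _), Real.sqrt_eq_rpow]
  rw [g2]
  apply Real.exp_le_exp.2
  linarith

end Pool.Agent.W737.SB
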