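import Pool.Agent.W737.SB.Struct
import Pool.Agent.W737.SB.Real

/-!
# Growth of the metric along a normal line (project SB)
-/

set_option autoImplicit false

open Metric Set

namespace Pool.Agent.W737.SB

variable {n : ℕ}

/-- structural data at z with error K -/
def SD (Ω : Set (V n)) (ν : V n) (h : V n → ℝ) (c₃ K : ℝ) (z : V n) : Prop :=
  ∃ f F : V n → V n, Fr Ω f F z ∧ 0 < h z ∧ ‖fderiv ℂ F z ν‖ ≤ 2 / h z ∧
        c₃ / h z ≤ ‖fderiv ℂ F z ν‖ ∧ ∃ d : ℝ, c₃ / h z ≤ |d| ∧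
          |(inner ℂ (fderiv ℂ F z ν) (fderiv ℂ (fun x => fderiv ℂ F (f x) ν) 0
            (fderiv ℂ F z ν)) : ℂ).re - 2 * d * ‖fderiv ℂ F z ν‖ ^ 2|
            ≤ K / h z * ‖fderiv ℂ F z ν‖ ^ 2 ∧
          (0 < d → ∀ u : V n, (d - K / h z) * ‖u‖ ^ 2 ≤
            (inner ℂ u (fderiv ℂ (fun x => fderiv ℂ F (f x) ν) 0 u) : ℂ).re)

theorem kap_center {Ω : Set (V n)} {f F : V n → V n} {z : V n} (H : Fr Ω f F z) (v : V n) :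
    kap F z v = ‖fderiv ℂ F z v‖ ^ 2 := by
  simp [kap, H.zero]

theorem hasDerivAt_car (hkap : S_kap) (hder : S_der) {Ω : Set (V n)} (hΩ : IsOpen Ω)
    {f F : V n → V n} {w₀ ν : V n} {y : ℝ} (H : Fr Ω f F (w₀ - (y : ℂ) • ν)) (v : V n) :
    HasDerivAt (fun t : ℝ => SQ.Car Ω (w₀ - (t : ℂ) • ν) v ^ 2)
      (-(2 * (inner ℂ (fderiv ℂ F (w₀ - (y : ℂ) • ν) v)
        (fderiv ℂ (fun x => fderiv ℂ F (f x) ν) 0 (fderiv ℂ F (w₀ - (y : ℂ) • ν) v)) : ℂ).re)) y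
      := by
  have h1 := hder n Ω f F _ ν v hΩ H
  set D := (2 * (inner ℂ (fderiv ℂ F (w₀ - (y : ℂ) • ν) v)
        (fderiv ℂ (fun x => fderiv ℂ F (f x) ν) 0 (fderiv ℂ F (w₀ - (y : ℂ) • ν) v)) : ℂ).re)
    with hD
  have h2 : HasDerivAt (fun t : ℝ => y - t) (-1) y := by
    simpa using (hasDerivAt_id y).const_sub y
  have h3 : HasDerivAt (fun s : ℝ => kap F (w₀ - (y : ℂ) • ν + (s : ℂ) • ν) v) D
      ((fun t : ℝ => y - t) y) := by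
    simpa using h1
  have h4 := h3.comp y h2
  rw [mul_neg, mul_one] at h4
  refine h4.congr_of_eventuallyEq ?_
  have h5 : ContinuousAt (fun t : ℝ => w₀ - (t : ℂ) • ν) y := by
    apply ContinuousAt.sub continuousAt_const
    exact (Complex.continuous_ofReal.continuousAt).smul continuousAt_const
  filter_upwards [h5.preimage_mem_nhds (hΩ.mem_nhds H.mem)] with t ht
  rw [hkap n Ω f F _ hΩ H _ ht v]
  show kap F (w₀ - (t : ℂ) • ν) v = kap F (w₀ - (y : ℂ) • ν + ((y - t : ℝ) : ℂ) • ν) v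
  congr 1
  push_cast
  rw [sub_smul]
  abel

theorem line_car (hkap : S_kap) (hder : S_der) {Ω : Set (V n)} (hΩ : IsOpen Ω) {w₀ ν : V n}
    {h : V n → ℝ} {c₃ y₁ Db : ℝ} {K Θ : ℝ → ℝ} (hc₃ : 0 < c₃) (hy₁ : 0 < y₁) (hDb : 0 < Db)
    (hb : ∀ x ∈ Ω, ‖x‖ < Db) (hh : ∀ y ∈ Ioo 0 y₁, h (w₀ - (y : ℂ) • ν) = y)
    (hSD : ∀ y ∈ Ioo 0 y₁, SD Ω ν h c₃ (K y) (w₀ - (y : ℂ) • ν))
    (hK0 : ∀ y ∈ Ioo 0 y₁, 0 ≤ K y) (hK1 : ∀ y ∈ Ioo 0 y₁, 2 * K y ≤ c₃)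
    (hΘ : ∀ y ∈ Ioo 0 y₁, HasDerivAt Θ (4 * K y / y) y) {v : V n} (hv : v ≠ 0)
    {y y' : ℝ} (hy : 0 < y) (hyy : y ≤ y') (hy' : y' < y₁) :
    c₃ / y * (‖v‖ ^ 2 / Db ^ 2 * (y' / 2)) * Real.exp (-(Θ y' - Θ y))
      ≤ SQ.Car Ω (w₀ - (y : ℂ) • ν) v ^ 2 := by
  choose! f F hF h0 hup hlo d hd hn hp using hSD
  have hvn : 0 < ‖v‖ := norm_pos_iff.2 hv
  have hcar : ∀ y ∈ Ioo 0 y₁, ∀ v : V n, SQ.Car Ω (w₀ - (y : ℂ) • ν) v ^ 2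
      = ‖fderiv ℂ (F y) (w₀ - (y : ℂ) • ν) v‖ ^ 2 := by
    intro y hy v
    rw [hkap n Ω _ _ _ hΩ (hF y hy) _ (hF y hy).mem v, kap_center (hF y hy)]
  have hkvlow : ∀ y ∈ Ioo 0 y₁, ‖v‖ ^ 2 / Db ^ 2 ≤ SQ.Car Ω (w₀ - (y : ℂ) • ν) v ^ 2 := by
    intro y hy
    have := SQ.le_car_of_bdd hΩ (hF y hy).mem v hDb hb
    rw [← div_pow]
    gcongr
  have key := line_bound (y₁ := y₁) (c₂ := c₃) hy₁ hc₃
    (kn := fun t : ℝ => SQ.Car Ω (w₀ - (t : ℂ) • ν) ν ^ 2)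
    (kv := fun t : ℝ => SQ.Car Ω (w₀ - (t : ℂ) • ν) v ^ 2)
    (kn' := fun y => -(2 * (inner ℂ (fderiv ℂ (F y) (w₀ - (y : ℂ) • ν) ν)
        (fderiv ℂ (fun x => fderiv ℂ (F y) (f y x) ν) 0
          (fderiv ℂ (F y) (w₀ - (y : ℂ) • ν) ν)) : ℂ).re))
    (kv' := fun y => -(2 * (inner ℂ (fderiv ℂ (F y) (w₀ - (y : ℂ) • ν) v)
        (fderiv ℂ (fun x => fderiv ℂ (F y) (f y x) ν) 0
          (fderiv ℂ (F y) (w₀ - (y : ℂ) • ν) v)) : ℂ).re))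
    (K := fun y => 2 * K y) (Θ := Θ)
    (fun y hy => hasDerivAt_car hkap hder hΩ (hF y hy) ν)
    (fun y hy => hasDerivAt_car hkap hder hΩ (hF y hy) v)
    (by
      intro y hy
      show (c₃ / y) ^ 2 ≤ SQ.Car Ω (w₀ - (y : ℂ) • ν) ν ^ 2
      rw [hcar y hy]
      have := hlo y hy
      rw [hh y hy] at this
      have hy0 := hy.1
      gcongr)
    (by
      intro y hy
      exact lt_of_lt_of_le (by positivity) (hkvlow y hy))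
    (by
      intro y hy
      have e1 := hd y hy
      have e2 := hn y hy
      have e3 := hp y hy
      rw [hh y hy] at e1 e2 e3
      refine ⟨d y, e1, ?_, ?_⟩
      · show |-(2 * (inner ℂ (fderiv ℂ (F y) (w₀ - (y : ℂ) • ν) ν)
          (fderiv ℂ (fun x => fderiv ℂ (F y) (f y x) ν) 0
          (fderiv ℂ (F y) (w₀ - (y : ℂ) • ν) ν)) : ℂ).re)
            + 4 * d y * SQ.Car Ω (w₀ - (y : ℂ) • ν) ν ^ 2|
            ≤ 2 * K y / y * SQ.Car Ω (w₀ - (y : ℂ) • ν) ν ^ 2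
        rw [hcar y hy]
        have e4 := abs_le.1 e2
        have e5 : 2 * K y / y * ‖fderiv ℂ (F y) (w₀ - (y : ℂ) • ν) ν‖ ^ 2
            = 2 * (K y / y * ‖fderiv ℂ (F y) (w₀ - (y : ℂ) • ν) ν‖ ^ 2) := by ring
        rw [e5]
        apply abs_le.2
        constructor
        · linarith [e4.2]
        · linarith [e4.1]
      · intro hd0
        show -(2 * (inner ℂ (fderiv ℂ (F y) (w₀ - (y : ℂ) • ν) v)
          (fderiv ℂ (fun x => fderiv ℂ (F y) (f y x) ν) 0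
          (fderiv ℂ (F y) (w₀ - (y : ℂ) • ν) v)) : ℂ).re)
            ≤ (-2 * d y + 2 * K y / y) * SQ.Car Ω (w₀ - (y : ℂ) • ν) v ^ 2
        rw [hcar y hy]
        have e4 := e3 hd0 (fderiv ℂ (F y) (w₀ - (y : ℂ) • ν) v)
        have e5 : (-2 * d y + 2 * K y / y) * ‖fderiv ℂ (F y) (w₀ - (y : ℂ) • ν) v‖ ^ 2
            = -2 * ((d y - K y / y) * ‖fderiv ℂ (F y) (w₀ - (y : ℂ) • ν) v‖ ^ 2) := by ring
        rw [e5]
        linarith)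
    hK1 (fun y hy => by
      show 0 ≤ 2 * K y
      have := hK0 y hy
      linarith) (fun y hy => by
      have := hΘ y hy
      convert this using 1
      ring) hy hyy hy'
  refine le_trans ?_ key
  have hym' : y' ∈ Ioo 0 y₁ := ⟨by linarith, hy'⟩
  have hy'0 : 0 < y' := hym'.1
  apply mul_le_mul_of_nonneg_right _ (Real.exp_pos _).le
  apply mul_le_mul_of_nonneg_left _ (by positivity)
  show ‖v‖ ^ 2 / Db ^ 2 * (y' / 2) ≤ SQ.Car Ω (w₀ - (y' : ℂ) • ν) v ^ 2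
    / Real.sqrt (SQ.Car Ω (w₀ - (y' : ℂ) • ν) ν ^ 2)
  rw [hcar y' hym' ν, Real.sqrt_sq (norm_nonneg _)]
  have e1 := hup y' hym'
  have e2 := hlo y' hym'
  rw [hh y' hym'] at e1 e2
  have e3 : 0 < ‖fderiv ℂ (F y') (w₀ - (y' : ℂ) • ν) ν‖ := lt_of_lt_of_le (by positivity) e2
  rw [le_div_iff₀ e3]
  have e4 : y' / 2 * ‖fderiv ℂ (F y') (w₀ - (y' : ℂ) • ν) ν‖ ≤ 1 := by
    calc y' / 2 * ‖fderiv ℂ (F y') (w₀ - (y' : ℂ) • ν) ν‖ ≤ y' / 2 * (2 / y') := by gcongr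
      _ = 1 := by field_simp
  calc ‖v‖ ^ 2 / Db ^ 2 * (y' / 2) * ‖fderiv ℂ (F y') (w₀ - (y' : ℂ) • ν) ν‖
      = ‖v‖ ^ 2 / Db ^ 2 * (y' / 2 * ‖fderiv ℂ (F y') (w₀ - (y' : ℂ) • ν) ν‖) := by ring
    _ ≤ ‖v‖ ^ 2 / Db ^ 2 * 1 := by gcongr
    _ = ‖v‖ ^ 2 / Db ^ 2 := mul_one _
    _ ≤ _ := hkvlow y' hym'

end Pool.Agent.W737.SB
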