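import Pool.Agent.W737.SB.Soft
import Pool.Agent.W737.SB.Hard
import Pool.Agent.W737.SB.Line

/-!
# Main contradiction (project SB)
-/

set_option autoImplicit false

open Metric Set

namespace Pool.Agent.W737.SB

variable {n : ℕ}

theorem SD.of_struct {Ω : Set (V n)} {ν : V n} {h : V n → ℝ} {c₃ K K' : ℝ} {z : V n}
    (hK : K ≤ K')
    (H : ∃ f F : V n → V n, Fr Ω f F z ∧ 0 < h z ∧
        (∀ x, ‖x‖ ≤ 3 / 5 → h z / 800 ≤ h (f x)) ∧ ‖fderiv ℂ F z ν‖ ≤ 2 / h z ∧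
        c₃ / h z ≤ ‖fderiv ℂ F z ν‖ ∧ ∃ d : ℝ, c₃ / h z ≤ |d| ∧
          |(inner ℂ (fderiv ℂ F z ν) (fderiv ℂ (fun x => fderiv ℂ F (f x) ν) 0
            (fderiv ℂ F z ν)) : ℂ).re - 2 * d * ‖fderiv ℂ F z ν‖ ^ 2|
            ≤ K / h z * ‖fderiv ℂ F z ν‖ ^ 2 ∧
          (0 < d → ∀ u : V n, (d - K / h z) * ‖u‖ ^ 2 ≤
            (inner ℂ u (fderiv ℂ (fun x => fderiv ℂ F (f x) ν) 0 u) : ℂ).re)) :
    SD Ω ν h c₃ K' z := by
  obtain ⟨f, F, H1, H2, H3, H4, H5, d, H6, H7, H8⟩ := H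
  refine ⟨f, F, H1, H2, H4, H5, d, H6, H7.trans ?_, fun hd u => le_trans ?_ (H8 hd u)⟩
  · gcongr
  · have : K / h z ≤ K' / h z := by gcongr
    apply mul_le_mul_of_nonneg_right _ (sq_nonneg _)
    linarith

/-- the growth at the soft level -/
theorem soft_growth (haut : S_aut) (hcon : S_con) (hent : S_ent) (hqu : S_qu) (hcmp : S_cmp)
    (hshr : S_shr) (hrat : S_rat) (hkap : S_kap) (hder : S_der) {Ω : Set (V n)} {ρ : V n → ℝ}
    {p ν : V n} {h : V n → ℝ}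
    {r₀ C s₁ c₂ C₂ : ℝ} (X : Ctx Ω ρ p ν h r₀ C s₁ c₂ C₂)
    (hfar : ∀ q, Bad ρ q → ‖q‖ ≤ ‖p‖) :
    ∃ r c : ℝ, 0 < r ∧ r ≤ r₀ ∧ 0 < c ∧
      (∀ z ∈ Ω, ‖z - p‖ < r → ∀ f F : V n → V n, Fr Ω f F z → ∀ x, ‖x‖ ≤ 3 / 5 →
        f x ∈ ball p r₀ ∧ c * h z ≤ h (f x)) ∧
      (∀ z ∈ Ω, ‖z - p‖ < r → ∀ v : V n,
        c * ‖v‖ ^ 8 ≤ h z ^ 3 * SQ.Car Ω z v ^ 8) := by
  obtain ⟨C₇, q₁, c₃, hC₇, hq₁, hq₁', hc₃, hst⟩ := struct hent hqu hrat X
  have hr0 := X.T.r0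
  have hC := X.T.C0
  have hΩ := X.D.isOpen
  -- choose q and s
  set κ₀ : ℝ := min (1 / 64) (c₃ / 4) with hκ₀
  have hκ₀0 : 0 < κ₀ := lt_min (by norm_num) (by positivity)
  have hκa : κ₀ ≤ 1 / 64 := min_le_left _ _
  have hκb : κ₀ ≤ c₃ / 4 := min_le_right _ _
  set q : ℝ := min q₁ ((κ₀ / (2 * C₇)) ^ 2) with hq
  have hq0 : 0 < q := lt_min hq₁ (by positivity)
  have hqa : q ≤ q₁ := min_le_left _ _
  have hqb : Real.sqrt q ≤ κ₀ / (2 * C₇) := by
    rw [Real.sqrt_le_left (by positivity)]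
    exact min_le_right _ _
  obtain ⟨s, R, hs, hsb, hR, hRr, hQ⟩ := soft haut hcon hent hqu hcmp hshr X hfar q
    (min q₁ (min (κ₀ / (2 * C₇)) (min (1 / 10) (r₀ / 2)))) hq0
    (lt_min hq₁ (lt_min (by positivity) (lt_min (by norm_num) (by positivity))))
  have hsq : s ≤ q₁ := hsb.trans (min_le_left _ _)
  have hsκ : s ≤ κ₀ / (2 * C₇) := hsb.trans ((min_le_right _ _).trans (min_le_left _ _))
  have hs10 : s ≤ 1 / 10 :=
    hsb.trans (((min_le_right _ _).trans (min_le_right _ _)).trans (min_le_left _ _))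
  have hsr : s ≤ r₀ / 2 :=
    hsb.trans (((min_le_right _ _).trans (min_le_right _ _)).trans (min_le_right _ _))
  have hκ : C₇ * (Real.sqrt q + s) ≤ κ₀ := by
    have h1 : Real.sqrt q + s ≤ κ₀ / C₇ := by
      have : κ₀ / C₇ = κ₀ / (2 * C₇) + κ₀ / (2 * C₇) := by field_simp; ring
      rw [this]; linarith
    calc C₇ * (Real.sqrt q + s) ≤ C₇ * (κ₀ / C₇) := by gcongr
      _ = κ₀ := by field_simp
  have hstz : ∀ z ∈ Ω, ‖z - p‖ < R → _ := fun z hz hzp => hst s q hs hsq hq0.le hqa z (hQ z hz hzp).1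
  -- bound of the domain
  obtain ⟨Db, hDb, hb⟩ : ∃ Db : ℝ, 0 < Db ∧ ∀ x ∈ Ω, ‖x‖ < Db := by
    obtain ⟨D, hD⟩ := X.D.bdd.exists_norm_le
    exact ⟨max D 0 + 1, by positivity, fun x hx => by
      have := hD x hx
      have := le_max_left D 0
      linarith⟩
  set y₁ : ℝ := R / 2 with hy₁
  have hy₁0 : 0 < y₁ := by positivity
  set y' : ℝ := y₁ / 2 with hy'
  have hy'0 : 0 < y' := by positivity
  set c₄ : ℝ := c₃ * (y' / (2 * Db ^ 2)) with hc₄
  have hc₄0 : 0 < c₄ := by positivity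
  refine ⟨min (R / 4) (y' / (2 * C) ⊓ (R / (8 * C))), min (1 / 800) (c₄ ^ 4 / y'),
    lt_min (by positivity) (lt_min (by positivity) (by positivity)),
    (min_le_left _ _).trans (by linarith), lt_min (by norm_num) (by positivity), ?_, ?_⟩
  · intro z hz hzp f F H x hx
    have z1 : ‖z - p‖ < R := by
      have := hzp.trans_le (min_le_left _ _)
      linarith
    have hy : 0 < h z := (X.h_pos (by rw [mem_ball, dist_eq_norm]; linarith)).1 hz
    constructor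
    · have h1 := (hQ z hz z1).2 f F H x (by
        have : s ^ 4 ≤ (1 / 10) ^ 4 := pow_le_pow_left₀ hs.le hs10 4
        norm_num at this
        linarith)
      rw [mem_ball, dist_eq_norm]
      have h2 : s ^ 9 ≤ s := by
        calc s ^ 9 = s ^ 8 * s := by ring
          _ ≤ 1 * s := by
            apply mul_le_mul_of_nonneg_right _ hs.le
            exact pow_le_one₀ hs.le (by linarith)
          _ = s := one_mul s
      linarith
    · obtain ⟨f₀, F₀, H₀, g1, g2, g3⟩ := hstz z hz z1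
      obtain ⟨k1, k2⟩ := H₀.change H (x := x) (by linarith)
      have := g2 _ (k1.trans hx)
      rw [k2] at this
      have h3 : min (1 / 800) (c₄ ^ 4 / y') * h z ≤ 1 / 800 * h z :=
        mul_le_mul_of_nonneg_right (min_le_left _ _) hy.le
      linarith
  · intro z hz hzp v
    have z1 : ‖z - p‖ < R / 4 := hzp.trans_le (min_le_left _ _)
    have z2 : ‖z - p‖ < y' / (2 * C) := hzp.trans_le ((min_le_right _ _).trans (min_le_left _ _))
    have z3 : ‖z - p‖ < R / (8 * C) := hzp.trans_le ((min_le_right _ _).trans (min_le_right _ _))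
    have hzr : z ∈ ball p r₀ := by rw [mem_ball, dist_eq_norm]; linarith
    have hy : 0 < h z := (X.h_pos hzr).1 hz
    have hyle : h z ≤ C * ‖z - p‖ := by
      have := X.T.h_le hzr
      rwa [abs_of_pos hy] at this
    have hy1 : h z ≤ y' := by
      rw [lt_div_iff₀ (by positivity)] at z2
      linarith
    have hy2 : h z ≤ R / 8 := by
      rw [lt_div_iff₀ (by positivity)] at z3
      linarith
    by_cases hv : v = 0
    · subst hv
      have := SQ.car_nonneg Ω z 0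
      rw [norm_zero, zero_pow (by norm_num), mul_zero]
      positivity
    have hvn : 0 < ‖v‖ := norm_pos_iff.2 hv
    set y : ℝ := h z with hyd
    set w₀ : V n := z + (y : ℂ) • ν with hw₀
    have hzw : w₀ - (y : ℂ) • ν = z := by rw [hw₀]; abel
    have hline : ∀ t ∈ Ioo 0 y₁, w₀ - (t : ℂ) • ν ∈ Ω ∧ ‖w₀ - (t : ℂ) • ν - p‖ < R ∧
        h (w₀ - (t : ℂ) • ν) = t := by
      intro t ht
      have e0 : w₀ - (t : ℂ) • ν = z + ((y - t : ℝ) : ℂ) • ν := by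
        rw [hw₀]; push_cast; rw [sub_smul]; abel
      have e1 : ‖w₀ - (t : ℂ) • ν - p‖ < R := by
        have : w₀ - (t : ℂ) • ν - p = (z - p) + ((y - t : ℝ) : ℂ) • ν := by rw [e0]; abel
        rw [this]
        refine (norm_add_le _ _).trans_lt ?_
        rw [norm_smul, X.T.hν, mul_one, Complex.norm_real, Real.norm_eq_abs]
        have h3 : |y - t| ≤ y + t := by
          rw [abs_le]
          constructor <;> linarith [ht.1]
        have := ht.2
        linarith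
      have e2 : w₀ - (t : ℂ) • ν ∈ ball p r₀ := by
        rw [mem_ball, dist_eq_norm]; linarith
      have e3 : h (w₀ - (t : ℂ) • ν) = t := by
        rw [e0, X.T.shift z hzr (y - t) (by rw [← e0]; exact e2)]
        rw [← hyd]; ring
      exact ⟨(X.h_pos e2).2 (by rw [e3]; exact ht.1), e1, e3⟩
    have key := line_car hkap hder hΩ (w₀ := w₀) (ν := ν) (h := h) (c₃ := c₃) (y₁ := y₁)
      (Db := Db) (K := fun _ => κ₀) (Θ := fun t => 4 * κ₀ * Real.log t) hc₃ hy₁0 hDb hb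
      (fun t ht => (hline t ht).2.2)
      (fun t ht => SD.of_struct hκ (hstz _ (hline t ht).1 (hline t ht).2.1))
      (fun _ _ => hκ₀0.le) (fun _ _ => by linarith)
      (by
        intro t ht
        have := (Real.hasDerivAt_log ht.1.ne').const_mul (4 * κ₀)
        exact this.congr_deriv (by ring))
      hv hy hy1 (by linarith)
    rw [hzw] at key
    -- fourth power
    set E : ℝ := Real.exp (-(4 * κ₀ * Real.log y' - 4 * κ₀ * Real.log y)) with hE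
    have hE0 : 0 < E := Real.exp_pos _
    have hE4 : y / y' ≤ E ^ 4 := by
      rw [hE, ← Real.exp_nat_mul]
      have h1 : y / y' = Real.exp (Real.log y - Real.log y') := by
        rw [Real.exp_sub, Real.exp_log hy, Real.exp_log hy'0]
      rw [h1]
      apply Real.exp_le_exp.2
      have h2 : Real.log y ≤ Real.log y' := Real.log_le_log hy hy1
      push_cast
      nlinarith
    have key2 : c₄ / y * ‖v‖ ^ 2 * E ≤ SQ.Car Ω z v ^ 2 := by
      refine le_trans (le_of_eq ?_) key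
      rw [hc₄]; ring
    have hcar0 := SQ.car_nonneg Ω z v
    have key3 : (c₄ / y * ‖v‖ ^ 2 * E) ^ 4 ≤ (SQ.Car Ω z v ^ 2) ^ 4 := by gcongr
    have key4 : c₄ ^ 4 / y' * ‖v‖ ^ 8 ≤ y ^ 3 * SQ.Car Ω z v ^ 8 := by
      have h1 : (SQ.Car Ω z v ^ 2) ^ 4 = SQ.Car Ω z v ^ 8 := by ring
      rw [h1] at key3
      have h2 : (c₄ / y * ‖v‖ ^ 2 * E) ^ 4 = c₄ ^ 4 / y ^ 4 * ‖v‖ ^ 8 * E ^ 4 := by
        rw [mul_pow, mul_pow, div_pow]; ring
      rw [h2] at key3
      have h3 : c₄ ^ 4 / y ^ 4 * ‖v‖ ^ 8 * (y / y') ≤ c₄ ^ 4 / y ^ 4 * ‖v‖ ^ 8 * E ^ 4 := by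
        gcongr
      have h4 : y ^ 3 * (c₄ ^ 4 / y ^ 4 * ‖v‖ ^ 8 * (y / y')) = c₄ ^ 4 / y' * ‖v‖ ^ 8 := by
        field_simp
      rw [← h4]
      exact mul_le_mul_of_nonneg_left (h3.trans key3) (by positivity)
    refine le_trans ?_ key4
    apply mul_le_mul_of_nonneg_right (min_le_right _ _) (by positivity)

/-- the growth at the hard level -/
theorem hard_growth (haut : S_aut) (hcon : S_con) (hent : S_ent) (hqu : S_qu) (hcmp : S_cmp)
    (hrat : S_rat) (hkap : S_kap) (hder : S_der) {Ω : Set (V n)} {ρ : V n → ℝ}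
    {p ν : V n} {h : V n → ℝ}
    {r₀ C s₁ c₂ C₂ : ℝ} (X : Ctx Ω ρ p ν h r₀ C s₁ c₂ C₂) {m : ℕ} (hm : 1 ≤ m) {sx : ℝ}
    (hsx : 0 < sx) (hreg : ∀ s : ℝ, 0 < s → s < sx → ∀ y : ℝ, 0 < y → y ≤ s ^ m →
      Reg Ω p s (p - (y : ℂ) • ν)) :
    ∃ y₂ c : ℝ, 0 < y₂ ∧ 0 < c ∧ ∀ y : ℝ, 0 < y → y ≤ y₂ → ∀ v : V n, v ≠ 0 →
      c * ‖v‖ ^ 2 / y ≤ SQ.Car Ω (p - (y : ℂ) • ν) v ^ 2 := by
  obtain ⟨C₇, q₁, c₃, hC₇, hq₁, hq₁', hc₃, hst⟩ := struct hent hqu hrat X
  obtain ⟨y₀, K, γ, hy₀, hy₀1, hy₀r, hK, hγ, hγm, hQ⟩ :=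
    hard haut hcon hent hqu hcmp X hm hsx hreg
  have hΩ := X.D.isOpen
  have hm0 : (0 : ℝ) < m := by exact_mod_cast hm
  obtain ⟨Db, hDb, hb⟩ : ∃ Db : ℝ, 0 < Db ∧ ∀ x ∈ Ω, ‖x‖ < Db := by
    obtain ⟨D, hD⟩ := X.D.bdd.exists_norm_le
    exact ⟨max D 0 + 1, by positivity, fun x hx => by
      have := hD x hx
      have := le_max_left D 0
      linarith⟩
  set C₈ : ℝ := C₇ * (Real.sqrt K + 1) with hC₈
  have hsK : 0 ≤ Real.sqrt K := Real.sqrt_nonneg K
  have hC₈0 : 0 < C₈ := by positivity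
  -- small y
  set a : ℝ := min q₁ (min (q₁ / K) (min (c₃ / (2 * C₈)) 1)) with ha
  have ha0 : 0 < a := lt_min hq₁ (lt_min (by positivity) (lt_min (by positivity) one_pos))
  have a1 : a ≤ q₁ := min_le_left _ _
  have a2 : a ≤ q₁ / K := (min_le_right _ _).trans (min_le_left _ _)
  have a3 : a ≤ c₃ / (2 * C₈) :=
    ((min_le_right _ _).trans (min_le_right _ _)).trans (min_le_left _ _)
  have a4 : a ≤ 1 := ((min_le_right _ _).trans (min_le_right _ _)).trans (min_le_right _ _)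
  set y₁ : ℝ := min y₀ (a ^ (2 / γ)) with hy₁
  have hy₁0 : 0 < y₁ := lt_min hy₀ (Real.rpow_pos_of_pos ha0 _)
  have hy₁a : y₁ ≤ y₀ := min_le_left _ _
  have hpow : ∀ y ∈ Ioo 0 y₁, y ^ (γ / 2) ≤ a := by
    intro y hy
    have h1 : y ^ (γ / 2) ≤ (a ^ (2 / γ)) ^ (γ / 2) :=
      Real.rpow_le_rpow hy.1.le (hy.2.le.trans (min_le_right _ _)) (by positivity)
    refine h1.trans (le_of_eq ?_)
    rw [← Real.rpow_mul ha0.le]
    have : 2 / γ * (γ / 2) = 1 := by field_simp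
    rw [this, Real.rpow_one]
  have hSD : ∀ y ∈ Ioo 0 y₁, SD Ω ν h c₃ (C₈ * y ^ (γ / 2)) (p - (y : ℂ) • ν) := by
    intro y hy
    have hyp := hpow y hy
    have hy1 : y ≤ 1 := (hy.2.le.trans hy₁a).trans hy₀1
    have hg2 : 0 < y ^ (γ / 2) := Real.rpow_pos_of_pos hy.1 _
    have e1 : y ^ (1 / m : ℝ) ≤ y ^ (γ / 2) :=
      Real.rpow_le_rpow_of_exponent_ge hy.1 hy1 (by linarith)
    have e2 : y ^ γ = y ^ (γ / 2) * y ^ (γ / 2) := by
      rw [← Real.rpow_add hy.1]; congr 1; ring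
    have e3 : K * y ^ γ ≤ q₁ := by
      have h1 : y ^ γ ≤ a := by
        rw [e2]
        calc y ^ (γ / 2) * y ^ (γ / 2) ≤ a * 1 := by
              apply mul_le_mul hyp (hyp.trans a4) hg2.le ha0.le
          _ = a := mul_one a
      have h2 := h1.trans a2
      rw [le_div_iff₀ hK] at h2
      linarith
    have h1 := hst (y ^ (1 / m : ℝ)) (K * y ^ γ) (Real.rpow_pos_of_pos hy.1 _)
      ((e1.trans hyp).trans a1) (by have := Real.rpow_pos_of_pos hy.1 γ; positivity) e3 _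
      (hQ y hy.1 (hy.2.le.trans hy₁a))
    refine SD.of_struct ?_ h1
    have e4 : Real.sqrt (K * y ^ γ) = Real.sqrt K * y ^ (γ / 2) := by
      rw [Real.sqrt_mul hK.le, e2, Real.sqrt_mul_self hg2.le]
    rw [e4, hC₈]
    have : C₇ * (Real.sqrt K + 1) * y ^ (γ / 2) = C₇ * (Real.sqrt K * y ^ (γ / 2)
      + y ^ (γ / 2)) := by ring
    rw [this]
    gcongr
  set y' : ℝ := y₁ / 2 with hy'
  have hy'0 : 0 < y' := by positivity
  set Θ : ℝ → ℝ := fun t => 8 * C₈ / γ * t ^ (γ / 2) with hΘ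
  refine ⟨y', c₃ * (y' / (2 * Db ^ 2)) * Real.exp (-(Θ y')), hy'0, by positivity, ?_⟩
  intro y hy hyy v hv
  have key := line_car hkap hder hΩ (w₀ := p) (ν := ν) (h := h) (c₃ := c₃) (y₁ := y₁)
      (Db := Db) (K := fun t => C₈ * t ^ (γ / 2)) (Θ := Θ) hc₃ hy₁0 hDb hb
      (fun t ht => (X.h_line ht.1 (by linarith [ht.2])).2.1) hSD
      (fun t ht => by have := Real.rpow_pos_of_pos ht.1 (γ / 2); positivity)
      (fun t ht => by
        have h1 := (hpow t ht).trans a3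
        rw [le_div_iff₀ (by positivity)] at h1
        linarith)
      (by
        intro t ht
        have h1 := (Real.hasDerivAt_rpow_const (x := t) (p := γ / 2) (Or.inl ht.1.ne')).const_mul
          (8 * C₈ / γ)
        refine h1.congr_deriv ?_
        rw [Real.rpow_sub_one ht.1.ne']
        field_simp
        ring)
      hv hy hyy (by linarith)
  refine le_trans ?_ key
  have h1 : Real.exp (-(Θ y')) ≤ Real.exp (-(Θ y' - Θ y)) := by
    apply Real.exp_le_exp.2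
    have : 0 ≤ Θ y := by
      have := Real.rpow_pos_of_pos hy (γ / 2)
      rw [hΘ]
      positivity
    linarith
  have h2 : c₃ * (y' / (2 * Db ^ 2)) * Real.exp (-(Θ y')) * ‖v‖ ^ 2 / y
      = c₃ / y * (‖v‖ ^ 2 / Db ^ 2 * (y' / 2)) * Real.exp (-(Θ y')) := by
    field_simp
  rw [h2]
  gcongr

/-- the main theorem from the parts -/
theorem main_of (haut : S_aut) (hent : S_ent) (hqu : S_qu) (hcon : S_con) (hrat : S_rat)
    (hkap : S_kap) (hder : S_der) (hh : S_h) (hshr : S_shr) (hfar : S_far) (hup : S_up)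
    (hgood : S_good) (hext : S_ext) (hcmp : S_cmp) {Ω : Set (V n)} {ρ : V n → ℝ}
    (D : Dat Ω ρ) (q₀ : V n) : ¬ Bad ρ q₀ := by
  intro hbad
  obtain ⟨p, hp, hpfar⟩ := hfar n Ω ρ q₀ D hbad
  obtain ⟨hp0, w, hw0, hw1, hw2, hw3⟩ := hp
  obtain ⟨ν, h, r₀, C, c, T, hc, hgrad⟩ := hh n ρ p D.smooth hp0 (D.nz p hp0)
  obtain ⟨s₁, c₂, C₂, X⟩ := exists_ctx hgood D T
  have hΩ := D.isOpen
  obtain ⟨r, cc, hr, hrr, hcc, hE1, hE2⟩ := soft_growth haut hcon hent hqu hcmp hshr hrat hkap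
    hder X hpfar
  obtain ⟨m, sx, hsx, hm⟩ := hext n Ω ρ p ν h r₀ C D T r cc hr hrr hcc hE1 hE2
  obtain ⟨y₂, c₅, hy₂, hc₅, hgrow⟩ := hard_growth haut hcon hent hqu hcmp hrat hkap hder X
    (m := m + 1) (by omega) (sx := min sx 1) (lt_min hsx one_pos) (by
      intro s hs hs' y hy hym f F H x hx
      have h1 : s < sx := hs'.trans_le (min_le_left _ _)
      have h2 : s < 1 := hs'.trans_le (min_le_right _ _)
      refine hm s hs h1 y hy (hym.trans ?_) f F H x hx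
      rw [pow_succ]
      have : 0 < s ^ m := by positivity
      nlinarith)
  have hwn : 0 < ‖w‖ := norm_pos_iff.2 hw0
  -- choose N
  set N : ℝ := 2 / (Real.sqrt c₅ * ‖w‖) with hN
  have hsc : 0 < Real.sqrt c₅ := Real.sqrt_pos.2 hc₅
  have hN0 : 0 < N := by positivity
  obtain ⟨y₃, hy₃, hg⟩ := hup n ρ p ν w c N D.smooth hp0 T.hν hc hgrad hw1 hw2 hw3 hN0
  set y : ℝ := min (y₃ / 2) y₂ with hy
  have hy0 : 0 < y := lt_min (by positivity) hy₂
  have hy3 : y < y₃ := (min_le_left _ _).trans_lt (by linarith)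
  obtain ⟨g, hgd, hg0, hg1, hg2⟩ := hg y hy0 hy3
  have hsy : 0 < Real.sqrt y := Real.sqrt_pos.2 hy0
  have hcar := SQ.car_le_of_disc hΩ (z := p - (y : ℂ) • ν) (X := w) (ψ := g)
    (r := N * Real.sqrt y) (by positivity) hgd.differentiableOn (by
      intro t ht
      rw [D.eq]
      exact hg2 t (by simpa using ht)) hg0 hg1
  have hlow := hgrow y hy0 (min_le_right _ _) w hw0
  have hcar0 := SQ.car_nonneg Ω (p - (y : ℂ) • ν) w
  have h1 : SQ.Car Ω (p - (y : ℂ) • ν) w ^ 2 ≤ (1 / (N * Real.sqrt y)) ^ 2 := by gcongr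
  have h2 : (1 / (N * Real.sqrt y)) ^ 2 = c₅ * ‖w‖ ^ 2 / (4 * y) := by
    rw [div_pow, mul_pow, Real.sq_sqrt hy0.le, hN, div_pow, mul_pow, Real.sq_sqrt hc₅.le]
    field_simp
    norm_num
  rw [h2] at h1
  have h3 : c₅ * ‖w‖ ^ 2 / (4 * y) < c₅ * ‖w‖ ^ 2 / y := by
    have h4 : 0 < c₅ * ‖w‖ ^ 2 / y := by positivity
    have h5 : c₅ * ‖w‖ ^ 2 / (4 * y) = c₅ * ‖w‖ ^ 2 / y / 4 := by
      field_simp
    rw [h5]
    linarith
  linarith

end Pool.Agent.W737.SB
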