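import Pool.Agent.W737.SB.Chain

/-!
# The soft level (project SB)
-/

set_option autoImplicit false

open Metric Set

namespace Pool.Agent.W737.SB

variable {n : ℕ}

theorem soft (haut : S_aut) (hcon : S_con) (hent : S_ent) (hqu : S_qu) (hcmp : S_cmp)
    (hshr : S_shr) {Ω : Set (V n)} {ρ : V n → ℝ} {p ν : V n} {h : V n → ℝ}
    {r₀ C s₁ c₂ C₂ : ℝ} (X : Ctx Ω ρ p ν h r₀ C s₁ c₂ C₂)
    (hfar : ∀ q, Bad ρ q → ‖q‖ ≤ ‖p‖) (q sb : ℝ) (hq : 0 < q) (hsb : 0 < sb) :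
    ∃ s r : ℝ, 0 < s ∧ s ≤ sb ∧ 0 < r ∧ r < r₀ ∧ ∀ z ∈ Ω, ‖z - p‖ < r →
      QB Ω ν h c₂ C₂ s z q ∧ Reg Ω p s z := by
  obtain ⟨s₂, C₆, hs2, hs2a, hs2b, hC6, hstep⟩ := step haut hcon hent hqu X
  have hr0 := X.T.r0
  have hC := X.T.C0
  set s : ℝ := min sb (min s₂ (min (r₀ / 2) (q / (10 * C₆)))) with hs
  have hs0 : 0 < s := lt_min hsb (lt_min hs2 (lt_min (by positivity) (by positivity)))
  have e1 : s ≤ sb := min_le_left _ _
  have e2 : s ≤ s₂ := (min_le_right _ _).trans (min_le_left _ _)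
  have e3 : s ≤ r₀ / 2 := ((min_le_right _ _).trans (min_le_right _ _)).trans (min_le_left _ _)
  have e4 : s ≤ q / (10 * C₆) :=
    ((min_le_right _ _).trans (min_le_right _ _)).trans (min_le_right _ _)
  have e4' : 5 * C₆ * s ≤ q / 2 := by
    rw [le_div_iff₀ (by positivity)] at e4
    linarith
  have e5 : s ≤ s₁ := e2.trans hs2a
  obtain ⟨R, hR, hRr⟩ := hshr n Ω ρ p X.D X.T.hp hfar (1 - s ^ 4 / 2) (s ^ 9)
    (by have : 0 < s ^ 4 := by positivity
        linarith) (by positivity)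
  set rb : ℝ := min (R / 2) (r₀ / 2) with hrb
  have hrb0 : 0 < rb := lt_min (by positivity) (by positivity)
  have hrbR : rb ≤ R / 2 := min_le_left _ _
  have hrbr : rb ≤ r₀ / 2 := min_le_right _ _
  have hreg : ∀ z ∈ Ω, ‖z - p‖ ≤ rb → Reg Ω p s z := by
    intro z hz hzp f F H x hx
    exact (hRr z hz (by linarith) f F H x hx).le
  set y₁ : ℝ := rb / 2 with hy1
  have hy10 : 0 < y₁ := by positivity
  have hsub : closedBall p rb ⊆ ball p r₀ := closedBall_subset_ball (by linarith)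
  set K : Set (V n) := closedBall p rb ∩ h ⁻¹' (Icc (y₁ / 2) y₁) with hK
  have hKc : IsCompact K := by
    apply (isCompact_closedBall p rb).of_isClosed_subset _ inter_subset_left
    exact (X.T.smooth.continuousOn.mono hsub).preimage_isClosed_of_isClosed isClosed_closedBall
      isClosed_Icc
  have hKΩ : K ⊆ Ω := by
    intro w hw
    exact (X.h_pos (hsub hw.1)).2 (by
      have := hw.2.1
      linarith)
  obtain ⟨Q₀, hQ0, hstart⟩ := start haut hcmp hent hqu X K hKc hKΩ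
  have hch := chain X hs0 hC6 (r := rb) (y₁ := y₁) (Q₀ := Q₀) (by linarith) hreg
    (fun z hz hz' Q hQ hRg => hstep s s hs0 le_rfl e2 z hz hz' Q hQ hRg)
    (fun z hz hzp h1 h2 => by
      have hzc : z ∈ closedBall p rb := by rwa [mem_closedBall, dist_eq_norm]
      exact hstart s hs0 e5 e3 z ⟨hzc, h1, h2⟩ (hsub hzc) (hreg z hz hzp))
  obtain ⟨k₀, hk₀⟩ := exists_pow_lt_of_lt_one (x := q / (2 * Q₀)) (y := (4 / 5 : ℝ))
    (by positivity) (by norm_num)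
  have hk₀' : (4 / 5 : ℝ) ^ k₀ * Q₀ ≤ q / 2 := by
    rw [lt_div_iff₀ (by positivity)] at hk₀
    linarith
  refine ⟨s, min (rb / 2) (y₁ / (C * 2 ^ k₀)), hs0, e1, lt_min (by positivity) (by positivity),
    (min_le_left _ _).trans_lt (by linarith), ?_⟩
  intro z hz hzp
  have z1 : ‖z - p‖ < rb / 2 := hzp.trans_le (min_le_left _ _)
  have z2 : ‖z - p‖ < y₁ / (C * 2 ^ k₀) := hzp.trans_le (min_le_right _ _)
  have hzr : z ∈ ball p r₀ := by rw [mem_ball, dist_eq_norm]; linarith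
  have hy : 0 < h z := (X.h_pos hzr).1 hz
  have hyle : h z ≤ C * ‖z - p‖ := by
    have := X.T.h_le hzr
    rwa [abs_of_pos hy] at this
  have hylt : 2 ^ k₀ * h z < y₁ := by
    rw [lt_div_iff₀ (by positivity)] at z2
    calc 2 ^ k₀ * h z ≤ 2 ^ k₀ * (C * ‖z - p‖) := by gcongr
      _ = ‖z - p‖ * (C * 2 ^ k₀) := by ring
      _ < y₁ := z2
  have hk1 : (1 : ℝ) ≤ 2 ^ k₀ := one_le_pow₀ (by norm_num)
  have hx1 : 1 ≤ y₁ / h z := by
    rw [le_div_iff₀ hy]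
    nlinarith
  obtain ⟨k, hk, hk'⟩ := exists_nat_pow_near hx1 (by norm_num : (1:ℝ) < 2)
  rw [le_div_iff₀ hy] at hk
  have hk'' := hk'
  rw [div_lt_iff₀ hy] at hk'
  have hkk : k₀ ≤ k := by
    have h1 : (2 : ℝ) ^ k₀ < 2 ^ (k + 1) := by
      refine lt_trans ?_ hk''
      rw [lt_div_iff₀ hy]
      exact hylt
    have h2 := (pow_lt_pow_iff_right₀ (by norm_num : (1:ℝ) < 2)).1 h1
    omega
  refine ⟨?_, hreg z hz (by linarith)⟩
  refine (hch k z hz (by nlinarith) (by rw [pow_succ] at hk'; linarith) hk).mono X.C2 le_rfl ?_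
  have h3 : (4 / 5 : ℝ) ^ k ≤ (4 / 5) ^ k₀ :=
    pow_le_pow_of_le_one (by norm_num) (by norm_num) hkk
  nlinarith

end Pool.Agent.W737.SB
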