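import Pool.Agent.W737.SB.Frame

/-!
# The contraction step (project SB)
-/

set_option autoImplicit false

open Metric Set

namespace Pool.Agent.W737.SB

variable {n : ℕ}

theorem step (haut : S_aut) (hcon : S_con) (hent : S_ent) (hqu : S_qu)
    {Ω : Set (V n)} {ρ : V n → ℝ} {p ν : V n} {h : V n → ℝ} {r₀ C s₁ c₂ C₂ : ℝ}
    (X : Ctx Ω ρ p ν h r₀ C s₁ c₂ C₂) :
    ∃ s₂ C₆ : ℝ, 0 < s₂ ∧ s₂ ≤ s₁ ∧ C₂ * s₂ ≤ 1 / 400 ∧ 0 < C₆ ∧ ∀ s s' : ℝ, 0 < s' → s' ≤ s →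
      s ≤ s₂ → ∀ z : V n, z ∈ ball p r₀ → z + ((h z / 2 : ℝ) : ℂ) • ν ∈ ball p r₀ → ∀ Q : ℝ,
      QB Ω ν h c₂ C₂ s z Q → Reg Ω p s' (z + ((h z / 2 : ℝ) : ℂ) • ν) →
      QB Ω ν h c₂ C₂ s' (z + ((h z / 2 : ℝ) : ℂ) • ν) (4 / 5 * Q + C₆ * s) := by
  obtain ⟨Cc, hCc, hcon⟩ := hcon n
  have hC2 := X.C2
  have hc2 := X.c2
  set C₃ : ℝ := C₂ * (1 + 1 / c₂) with hC3
  have hC3p : 0 < C₃ := by positivity
  set C₅ : ℝ := Cc * 10 * C₃ * (1 + 40 * C₃) with hC5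
  have hC5p : 0 < C₅ := by positivity
  set s₂ : ℝ := min s₁ (min (1 / (400 * C₂)) (1 / (1400 * C₅))) with hs2
  have hs2p : 0 < s₂ := lt_min X.s1 (lt_min (by positivity) (by positivity))
  have hs2a : s₂ ≤ s₁ := min_le_left _ _
  have hs2b : s₂ ≤ 1 / (400 * C₂) := (min_le_right _ _).trans (min_le_left _ _)
  have hs2c : s₂ ≤ 1 / (1400 * C₅) := (min_le_right _ _).trans (min_le_right _ _)
  have hs2b' : C₂ * s₂ ≤ 1 / 400 := by
    rw [le_div_iff₀ (by positivity)] at hs2b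
    linarith
  have hs2c' : C₅ * s₂ ≤ 1 / 1400 := by
    rw [le_div_iff₀ (by positivity)] at hs2c
    linarith
  refine ⟨s₂, 320 * C₅, hs2p, hs2a, hs2b', by positivity, ?_⟩
  intro s s' hs' hss hs z hz hz' Q hQ hReg
  have hs0 : 0 < s := hs'.trans_le hss
  have hs1 : s ≤ 1 / 10 := hs.trans (hs2a.trans X.s1')
  obtain ⟨f, F, H, β, b, A, g, M, hM, hf, hMQ⟩ := hQ
  have hβ := g.β0
  have hy : 0 < h z := hβ.trans_le g.βh
  set y := h z with hyd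
  set z' : V n := z + ((y / 2 : ℝ) : ℂ) • ν with hz'd
  have hΩ := X.D.isOpen
  have hsC : C₂ * s ≤ 1 / 400 := (mul_le_mul_of_nonneg_left hs hC2.le).trans hs2b'
  obtain ⟨B1, B2, B3, B4⟩ := g.bounds hent hqu hΩ hC2 hs0 hsC H hM hf
  -- the point z'
  have hnorm : ‖((y / 2 : ℝ) : ℂ)‖ = y / 2 := by
    rw [Complex.norm_real, Real.norm_of_nonneg (by positivity)]
  have hz'Ω : z' ∈ Ω := g.vert _ (by rw [hnorm]; linarith)
  have ha : ‖F z'‖ ≤ 51 / 100 := by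
    have := H.vert_bound (R := 99 / 100 * y) (by positivity) g.vert
      (t := ((y / 2 : ℝ) : ℂ)) (by rw [hnorm]; linarith)
    rw [hnorm] at this
    refine this.trans ?_
    rw [div_le_iff₀ (by positivity)]
    linarith
  have hhz' : h z' = y / 2 := by
    rw [X.T.shift z hz (y / 2) hz', ← hyd]
    ring
  set a := F z' with had
  have ha1 : ‖a‖ < 1 := by linarith
  obtain ⟨a1, a2, a3, a4, a5, a6, a7, a8⟩ := haut n a ha1
  have H' := H.comp haut hz'Ω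
  rw [← had] at H'
  obtain ⟨β', b', A', g'⟩ := X.good s' hs' (hss.trans (hs.trans hs2a)) _ _ _ H' (hReg _ _ H')
  have hβ' := g'.β0
  -- comparison of β' and β
  have hββ : c₂ * β ≤ β' := by
    obtain ⟨x₀, hx0, hx0'⟩ := g'.att
    have h1 : x₀ ∈ ball (0 : V n) 1 := by
      rw [mem_ball_zero_iff]; linarith
    have h2 := a7 x₀ h1
    have h3 : ‖aut a x₀‖ ≤ 9 / 10 := by
      by_contra hcon
      push Not at hcon
      have h4 : (9 / 10 : ℝ) * (1 + ‖a‖ * ‖x₀‖) < ‖a‖ + ‖x₀‖ :=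
        lt_of_lt_of_le (mul_lt_mul_of_pos_right hcon (by positivity)) h2
      nlinarith [norm_nonneg a, norm_nonneg x₀,
        mul_nonneg (sub_nonneg.2 ha) (sub_nonneg.2 hx0)]
    have h4 := g.lo9 _ h3
    rw [hx0'] at h4
    exact h4
  -- epsilon
  set ε : ℝ := C₃ * s / β with hε
  have hε0 : 0 ≤ ε := by positivity
  have hε1 : C₂ * s / β ≤ ε := by
    rw [hε]
    gcongr
    rw [hC3]
    have : 0 < 1 / c₂ := by positivity
    nlinarith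
  have hε2 : C₂ * s' / β' ≤ ε := by
    have h1 : C₂ * s' / β' ≤ C₂ * s / (c₂ * β) := by
      gcongr
    refine h1.trans ?_
    have h2 : C₂ * s / (c₂ * β) = (C₂ * (1 / c₂)) * s / β := by
      field_simp
    rw [h2, hε]
    gcongr
    rw [hC3]
    nlinarith
  have hε3 : ε ≤ 40 * C₃ * s * ‖M‖ := by
    rw [hε, div_le_iff₀ hβ]
    have : 0 < C₃ * s := by positivity
    nlinarith
  obtain ⟨M', hM', hf', hMM'⟩ := hcon a ha (fun x => fderiv ℂ F (f x) ν) M ε hε0 hM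
    (by
      intro x hx
      rw [hf x]
      exact (g.appr x hx).trans hε1) b' A' g'.sym
    (by
      intro x hx
      refine le_trans (le_of_eq ?_) ((g'.appr x hx).trans hε2)
      congr 2
      have hx1 : x ∈ ball (0 : V n) 1 := by
        rw [mem_ball_zero_iff]; linarith
      have hw : f (aut a x) ∈ Ω := H.hfm (a2 hx1)
      have hFw : F (f (aut a x)) = aut a x := H.left _ (a2 hx1)
      have d1 : HasFDerivAt F (fderiv ℂ F (f (aut a x))) (f (aut a x)) :=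
        (H.hF.differentiableAt (hΩ.mem_nhds hw)).hasFDerivAt
      have d2 : HasFDerivAt (aut a) (fderiv ℂ (aut a) (aut a x)) (F (f (aut a x))) := by
        rw [hFw]
        exact (a1.differentiableAt (isOpen_ball.mem_nhds (a2 hx1))).hasFDerivAt
      have d3 := (d2.comp _ d1).fderiv
      have d4 : fderiv ℂ (fun w => aut a (F w)) (f (aut a x))
          = (fderiv ℂ (aut a) (aut a x)).comp (fderiv ℂ F (f (aut a x))) := d3
      rw [d4]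
      rfl)
  refine ⟨_, _, H', β', b', A', g', M', hM', hf', ?_⟩
  rw [hhz']
  have hκ : (1 + ‖a‖) / (1 - ‖a‖) ≤ 151 / 49 := by
    rw [div_le_div_iff₀ (by linarith) (by norm_num)]
    linarith
  have e1 : (y / 2) ^ 2 * ‖M'.comp M'‖ ≤ (y / 2) ^ 2 * (151 / 49 * ‖M.comp M‖
      + Cc * ε * (‖M‖ + ε)) := by
    apply mul_le_mul_of_nonneg_left _ (by positivity)
    refine hMM'.trans ?_
    gcongr
  have e2 : Cc * ε * (‖M‖ + ε) ≤ Cc * (40 * C₃ * s * ‖M‖) * (‖M‖ + 40 * C₃ * s * ‖M‖) := by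
    gcongr
  have e3 : Cc * (40 * C₃ * s * ‖M‖) * (‖M‖ + 40 * C₃ * s * ‖M‖) ≤
      4 * C₅ * s * ‖M‖ ^ 2 := by
    have : 40 * C₃ * s ≤ 40 * C₃ := by nlinarith
    have h5 : Cc * (40 * C₃ * s * ‖M‖) * (‖M‖ + 40 * C₃ * s * ‖M‖)
        ≤ Cc * (40 * C₃ * s * ‖M‖) * (‖M‖ + 40 * C₃ * ‖M‖) := by gcongr
    refine h5.trans (le_of_eq ?_)
    rw [hC5]; ring
  have e4 : (y / 2) ^ 2 * (Cc * ε * (‖M‖ + ε)) ≤ C₅ * s * (320 + 40 * Q) := by
    have h5 : (y / 2) ^ 2 * (Cc * ε * (‖M‖ + ε)) ≤ (y / 2) ^ 2 * (4 * C₅ * s * ‖M‖ ^ 2) :=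
      mul_le_mul_of_nonneg_left (e2.trans e3) (by positivity)
    have h6 : (y / 2) ^ 2 * (4 * C₅ * s * ‖M‖ ^ 2) = C₅ * s * (y ^ 2 * ‖M‖ ^ 2) := by ring
    have h7 : y ^ 2 * ‖M‖ ^ 2 ≤ 320 + 40 * Q := by linarith
    rw [h6] at h5
    exact h5.trans (mul_le_mul_of_nonneg_left h7 (by positivity))
  have hQ0 : 0 ≤ Q := le_trans (by positivity) hMQ
  have e5 : C₅ * s ≤ 1 / 1400 := (mul_le_mul_of_nonneg_left hs hC5p.le).trans hs2c'
  have e6 : C₅ * s * Q ≤ 1 / 1400 * Q := mul_le_mul_of_nonneg_right e5 hQ0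
  have e7 : (y / 2) ^ 2 * (151 / 49 * ‖M.comp M‖) = 151 / 196 * (y ^ 2 * ‖M.comp M‖) := by ring
  have e8 : (y / 2) ^ 2 * (151 / 49 * ‖M.comp M‖ + Cc * ε * (‖M‖ + ε))
      = (y / 2) ^ 2 * (151 / 49 * ‖M.comp M‖) + (y / 2) ^ 2 * (Cc * ε * (‖M‖ + ε)) := by ring
  rw [e8, e7] at e1
  nlinarith

end Pool.Agent.W737.SB
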