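import Pool.Agent.W737.SB.Chain

/-!
# Structure of the data at the soft level (project SB)
-/

set_option autoImplicit false

open Metric Set

namespace Pool.Agent.W737.SB

variable {n : ℕ}

/-- the vertical field is holomorphic -/
theorem Fr.diff_field {Ω : Set (V n)} (hΩ : IsOpen Ω) {f F : V n → V n} {z : V n}
    (H : Fr Ω f F z) (ν : V n) :
    DifferentiableOn ℂ (fun x => fderiv ℂ F (f x) ν) (ball 0 1) :=
  (Pool.Agent.Helper540.differentiableOn_fderiv_apply hΩ H.hF ν).comp H.hf H.hfm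

theorem hasFDerivAt_qf (b : V n) (A : V n →L[ℂ] V n) : HasFDerivAt (qf b A) A 0 := by
  have h1 : HasFDerivAt (fun x : V n => (inner ℂ b x : ℂ)) (innerSL ℂ b) 0 :=
    (innerSL ℂ b).hasFDerivAt
  have h2 : HasFDerivAt (fun x : V n => (inner ℂ b x : ℂ) • x)
      ((inner ℂ b (0 : V n) : ℂ) • ContinuousLinearMap.id ℂ (V n)
        + (innerSL ℂ b).smulRight (0 : V n)) 0 := h1.smul (hasFDerivAt_id (0 : V n))
  have h3 := (A.hasFDerivAt (x := (0 : V n))).const_add b |>.add h2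
  have h4 : HasFDerivAt (fun x : V n => b + A x + (inner ℂ b x : ℂ) • x)
      (A + ((inner ℂ b (0 : V n) : ℂ) • ContinuousLinearMap.id ℂ (V n)
        + (innerSL ℂ b).smulRight (0 : V n))) 0 := h3
  have h5 : A + ((inner ℂ b (0 : V n) : ℂ) • ContinuousLinearMap.id ℂ (V n)
        + (innerSL ℂ b).smulRight (0 : V n)) = A := by
    ext x : 1
    simp
  rw [h5] at h4
  exact h4

/-- Cauchy estimate for the linear coefficient -/
theorem lin_coeff {g : V n → V n} {b : V n} {A : V n →L[ℂ] V n} {δ : ℝ}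
    (hg : DifferentiableOn ℂ g (ball 0 1)) (h : ∀ x : V n, ‖x‖ ≤ 4 / 5 → ‖g x - qf b A x‖ ≤ δ) :
    ‖fderiv ℂ g 0 - A‖ ≤ 5 / 2 * δ := by
  have h0 : (0 : V n) ∈ ball (0 : V n) 1 := mem_ball_self one_pos
  have hq : Differentiable ℂ (qf b A) := by
    have h1 : Differentiable ℂ (fun x : V n => (inner ℂ b x : ℂ)) := (innerSL ℂ b).differentiable
    exact (A.differentiable.const_add b).add (h1.smul differentiable_id)
  have h1 : HasFDerivAt (fun x => g x - qf b A x) (fderiv ℂ g 0 - A) 0 :=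
    ((hg.differentiableAt (isOpen_ball.mem_nhds h0)).hasFDerivAt).sub (hasFDerivAt_qf b A)
  have h2 := Complex.norm_fderiv_le_div_of_mapsTo_ball (f := fun x => g x - qf b A x)
    (c := (0 : V n)) (R₁ := 4 / 5) (R₂ := 2 * δ)
    ((hg.mono (ball_subset_ball (by norm_num))).sub hq.differentiableOn)
    (by
      intro x hx
      rw [mem_ball_zero_iff] at hx
      rw [mem_closedBall, dist_eq_norm]
      have e1 := h x hx.le
      have e2 := h 0 (by rw [norm_zero]; norm_num)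
      refine (norm_sub_le _ _).trans ?_
      linarith) (by norm_num)
  rw [h1.fderiv] at h2
  linarith

/-- structure of the data at the soft level -/
theorem struct (hent : S_ent) (hqu : S_qu) (hrat : S_rat)
    {Ω : Set (V n)} {ρ : V n → ℝ} {p ν : V n} {h : V n → ℝ} {r₀ C s₁ c₂ C₂ : ℝ}
    (X : Ctx Ω ρ p ν h r₀ C s₁ c₂ C₂) :
    ∃ C₇ q₁ c₃ : ℝ, 0 < C₇ ∧ 0 < q₁ ∧ q₁ ≤ 1 ∧ 0 < c₃ ∧ ∀ s q : ℝ, 0 < s → s ≤ q₁ → 0 ≤ q →
      q ≤ q₁ → ∀ z, QB Ω ν h c₂ C₂ s z q → ∃ f F : V n → V n, Fr Ω f F z ∧ 0 < h z ∧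
        (∀ x, ‖x‖ ≤ 3 / 5 → h z / 800 ≤ h (f x)) ∧ ‖fderiv ℂ F z ν‖ ≤ 2 / h z ∧
        c₃ / h z ≤ ‖fderiv ℂ F z ν‖ ∧ ∃ d : ℝ, c₃ / h z ≤ |d| ∧
          |(inner ℂ (fderiv ℂ F z ν) (fderiv ℂ (fun x => fderiv ℂ F (f x) ν) 0
            (fderiv ℂ F z ν)) : ℂ).re - 2 * d * ‖fderiv ℂ F z ν‖ ^ 2|
            ≤ C₇ * (Real.sqrt q + s) / h z * ‖fderiv ℂ F z ν‖ ^ 2 ∧
          (0 < d → ∀ u : V n, (d - C₇ * (Real.sqrt q + s) / h z) * ‖u‖ ^ 2 ≤
            (inner ℂ u (fderiv ℂ (fun x => fderiv ℂ F (f x) ν) 0 u) : ℂ).re) := by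
  obtain ⟨Cr, q₀, c₃, hCr, hq₀, hc₃, hrat⟩ := hrat n (1 / 256) 20 (by norm_num) (by norm_num)
  have hC2 := X.C2
  set q₁ : ℝ := min (1 / 64000) (min q₀ (min (q₀ / (2000 * C₂)) (1 / (400 * C₂)))) with hq₁
  have hq₁0 : 0 < q₁ :=
    lt_min (by norm_num) (lt_min hq₀ (lt_min (by positivity) (by positivity)))
  have e1 : q₁ ≤ 1 / 64000 := min_le_left _ _
  have e2 : q₁ ≤ q₀ := (min_le_right _ _).trans (min_le_left _ _)
  have e3 : q₁ ≤ q₀ / (2000 * C₂) :=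
    ((min_le_right _ _).trans (min_le_right _ _)).trans (min_le_left _ _)
  have e4 : q₁ ≤ 1 / (400 * C₂) :=
    ((min_le_right _ _).trans (min_le_right _ _)).trans (min_le_right _ _)
  refine ⟨Cr * (1 + 2000 * C₂), q₁, c₃, by positivity, hq₁0, by linarith, hc₃, ?_⟩
  intro s q hs hsq hq hqq z hQ
  obtain ⟨f, F, H, β, b, A, g, M, hM, hf, hMQ⟩ := hQ
  have hβ := g.β0
  have hy : 0 < h z := hβ.trans_le g.βh
  have hΩ := X.D.isOpen
  have hsC : C₂ * s ≤ 1 / 400 := by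
    have := hsq.trans e4
    rw [le_div_iff₀ (by positivity)] at this
    linarith
  obtain ⟨B1, B2, B3, B4⟩ := g.bounds hent hqu hΩ hC2 hs hsC H hM hf
  obtain ⟨E1, E2, E3⟩ := ent' hent hqu hM hf
  have hMy : h z * ‖M‖ ≤ 20 := by
    have h1 : (h z * ‖M‖) ^ 2 ≤ 20 ^ 2 := by
      have : (h z * ‖M‖) ^ 2 = h z ^ 2 * ‖M‖ ^ 2 := by ring
      rw [this]
      norm_num
      linarith
    exact le_of_sq_le_sq h1 (by norm_num)
  have hM' : ‖M‖ ≤ 20 / h z := by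
    rw [le_div_iff₀ hy]; linarith
  have hβy : h z ≤ 800 * β := by
    have h1 : h z * 1 ≤ h z * (40 * ‖M‖ * β) := mul_le_mul_of_nonneg_left B1 hy.le
    have h2 : h z * (40 * ‖M‖ * β) = 40 * (h z * ‖M‖) * β := by ring
    have h3 : 40 * (h z * ‖M‖) * β ≤ 40 * 20 * β := by gcongr
    linarith
  have hMlow : 1 / 40 ≤ h z * ‖M‖ := by
    have h1 : ‖M‖ * β ≤ ‖M‖ * h z := mul_le_mul_of_nonneg_left g.βh (norm_nonneg _)
    linarith
  have hMM : ‖M.comp M‖ ≤ q / h z ^ 2 := by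
    rw [le_div_iff₀ (by positivity)]
    linarith
  have hb : 1 / 256 / h z ≤ ‖b‖ := by
    rw [div_le_iff₀ hy]
    have h1 : (h z * ‖M‖) ^ 2 ≤ 20 * ((h z * ‖b‖) ^ 2 + h z ^ 2 * ‖M.comp M‖) := by
      have := mul_le_mul_of_nonneg_left E3 (sq_nonneg (h z))
      nlinarith
    have h2 : (1 / 40) ^ 2 ≤ (h z * ‖M‖) ^ 2 := by gcongr
    have h3 : (1 / 256) ^ 2 ≤ (h z * ‖b‖) ^ 2 := by
      have := hqq.trans e1
      norm_num at h2 ⊢
      linarith
    have h4 := le_of_sq_le_sq h3 (by positivity)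
    linarith
  -- errors
  set ε : ℝ := 2000 * C₂ * s with hε
  have hε0 : 0 ≤ ε := by positivity
  have hεq : ε ≤ q₀ := by
    have := hsq.trans e3
    rw [le_div_iff₀ (by positivity)] at this
    linarith
  have hCsβ : C₂ * s / β ≤ 800 * C₂ * s / h z := by
    rw [div_le_div_iff₀ hβ hy]
    have : 0 < C₂ * s := by positivity
    nlinarith
  have hb0 : ‖fderiv ℂ F z ν - b‖ ≤ ε / h z := by
    refine (B3.trans hCsβ).trans ?_
    gcongr
    rw [hε]
    nlinarith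
  have hA0 : ‖fderiv ℂ (fun x => fderiv ℂ F (f x) ν) 0 - A‖ ≤ ε / h z := by
    have h1 := lin_coeff (H.diff_field hΩ ν) g.appr
    refine h1.trans ?_
    have h2 : 5 / 2 * (C₂ * s / β) ≤ 5 / 2 * (800 * C₂ * s / h z) := by gcongr
    refine h2.trans (le_of_eq ?_)
    rw [hε]; ring
  obtain ⟨d, d1, d2, d3, d4⟩ := hrat (h z) q ε hy hq (hqq.trans e2) hε0 hεq M b
    (fderiv ℂ F z ν) A (fderiv ℂ (fun x => fderiv ℂ F (f x) ν) 0) hM g.sym hf hb0 hA0 hMM hb hM'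
  have hsq0 : 0 ≤ Real.sqrt q := Real.sqrt_nonneg q
  have hqs : q ≤ Real.sqrt q := by
    have h1 : q ≤ 1 := by linarith
    have h2 := Real.sq_sqrt hq
    have h3 : Real.sqrt q ≤ 1 := by
      rw [Real.sqrt_le_one]; exact h1
    nlinarith
  have hK : Cr * (Real.sqrt q + ε) ≤ Cr * (1 + 2000 * C₂) * (Real.sqrt q + s) := by
    rw [mul_assoc]
    apply mul_le_mul_of_nonneg_left _ hCr.le
    rw [hε]
    nlinarith [mul_nonneg hC2.le hsq0]
  refine ⟨f, F, H, hy, ?_, B2, d2, d, d1, ?_, ?_⟩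
  · intro x hx
    have := g.lo x hx
    linarith
  · refine d3.trans ?_
    have : Cr * (q + ε) ≤ Cr * (1 + 2000 * C₂) * (Real.sqrt q + s) :=
      le_trans (mul_le_mul_of_nonneg_left (by linarith) hCr.le) hK
    gcongr
  · intro hd u
    refine le_trans ?_ (d4 hd u)
    apply mul_le_mul_of_nonneg_right _ (sq_nonneg _)
    have : Cr * (Real.sqrt q + ε) / h z ≤ Cr * (1 + 2000 * C₂) * (Real.sqrt q + s) / h z := by
      gcongr
    linarith

end Pool.Agent.W737.SB
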